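import Mathlib

/-!
# Project NP (helper284): fields with property (A) of MP_023059_nt which are not PAC

Plan. `p` a prime, `Y` the curve `y^p - y = x^(p+1)`. For every perfect field `K` of characteristic `p` and every smooth proper
geometrically integral `K`-scheme `X` with `H^1(X, O_X) = 0` all points of `Y` over the function field of `X` are points over `K`.
So one can adjoin generic points of all these `X` (again and again) without getting new points on `Y`.
-/

set_option autoImplicit false

namespace Pool.Agent.Q284.NP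

open CategoryTheory AlgebraicGeometry
open scoped TensorProduct

/-- `A` is free over its `p`-th powers, with `1` in a basis -/
def PB (p : ℕ) (A : Type) [CommRing A] : Prop :=
  ∃ (n : ℕ) (e : Fin (n + 1) → A), e 0 = 1 ∧ (∀ a : A, ∃ c : Fin (n + 1) → A, a = ∑ i, c i ^ p * e i) ∧
    ∀ c : Fin (n + 1) → A, ∑ i, c i ^ p * e i = 0 → ∀ i, c i = 0

/-- `w` is in the localization at the prime ideal `P` -/
def InLoc (A L : Type) [CommRing A] [Field L] [Algebra A L] (P : Ideal A) (w : L) : Prop :=
  ∃ a s : A, s ∉ P ∧ algebraMap A L s * w = algebraMap A L a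

/-- JOB NRM. A Noetherian local domain of characteristic `p` which is free over its `p`-th powers is integrally closed.
Proof. Let `z = a/b` (`b ≠ 0`) in the fraction field be integral over `A` and not in `A`. There is `c ≠ 0` in `A` with `c z^n ∈ A` for
all `n` (`c` = power of `b`, since `A[z]` is a finite `A`-module spanned by `1, z, ..., z^(d-1)`). Put
`J_e = {r ∈ A : b^(p^e) divides r a^(p^e)}` (an ideal). `J_0 ⊆ m` (otherwise `b | a`). Claim: every element of `J_(e+1)` is a
combination of `p`-th powers of elements of `J_e`: if `r a^(p^(e+1)) = b^(p^(e+1)) s`, write `r = ∑ r_i^p e_i`, `s = ∑ s_i^p e_i`, then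
`∑ (r_i a^(p^e) - b^(p^e) s_i)^p e_i = 0` (`sub_pow_char`), so `r_i a^(p^e) = b^(p^e) s_i`, i.e. `r_i ∈ J_e`. By induction
`J_e ⊆ m^(e+1)` (as `(m^k)^p`-elements are in `m^(kp)` and `kp ≥ k+1`). But `c ∈ J_e` for all `e` (`c z^(p^e) ∈ A`), and the
intersection of the powers of `m` is zero (`Ideal.iInf_pow_eq_bot_of_isLocalRing`). Contradiction. -/
def S_NRM : Prop :=
  ∀ (p : ℕ) [Fact p.Prime] (A : Type) [CommRing A] [IsDomain A] [CharP A p] [IsNoetherianRing A] [IsLocalRing A],
    PB p A → IsIntegrallyClosed A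

/-- JOB DVR. An integrally closed Noetherian domain is the intersection of its localizations which are valuation rings.
Proof. Suppose `z ∉ A`. In the `A`-module `L/A` (`L` modulo the range of `Algebra.linearMap A L`) the class of `z` is not zero, so there
are (`exists_le_isAssociatedPrime_of_isNoetherianRing`) a prime `P` and `z₁ ∈ L` (a multiple `z₁ = b z`, `b ∈ A`, can be arranged:
apply the theorem to the submodule spanned by the class of `z`, or use that `A` is Noetherian and take a maximal element among the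
ideals `ann(b z)`, `b z ∉ A`) with `P = {a ∈ A : a z₁ ∈ A}`, `z₁ ∉ A`. Let `A_P` be the set of `w` with `InLoc A L P w`.
(i) If `a z₁ ∈ P` for all `a ∈ P`, then `z₁` maps the finitely generated faithful ideal `P ≠ 0` into itself, so `z₁` is integral over
`A` and so `z₁ ∈ A`, contradiction (if `P = 0` then `z₁ = u/v`, `v z₁ ∈ A`, `v ∈ P = 0`, contradiction).
(ii) So there is `a ∈ P` with `a z₁ = s ∉ P`. Then for `c ∈ P`: `s c = a (c z₁)` with `c z₁ ∈ A`: `P A_P` is generated by `a`, and
`A_P` is a Noetherian local domain with principal maximal ideal, so a valuation ring (`IsDiscreteValuationRing` TFAE for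
`Localization.AtPrime P`, transported to `L`). The hypothesis gives `s' z ∈ A` with `s' ∉ P`, so `s' z₁ = s' b z ∈ A`, so `s' ∈ P`,
contradiction. -/
def S_DVR : Prop :=
  ∀ (A L : Type) [CommRing A] [IsDomain A] [IsNoetherianRing A] [IsIntegrallyClosed A] [Field L] [Algebra A L]
    [IsFractionRing A L] (z : L),
    (∀ P : Ideal A, P.IsPrime → (∀ w : L, InLoc A L P w ∨ InLoc A L P w⁻¹) → InLoc A L P z) →
    ∃ a : A, algebraMap A L a = z

/-- JOB VAL. Proof. Suppose `x ∉ V`; then `x ≠ 0`, `x⁻¹ ∈ V`, `y ≠ 0`. If `w = y/x^p ∉ V` then `u = x^p/y ∈ V`, `y⁻¹ = u (x⁻¹)^p ∈ V`.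
Divide the equation by `y^p`: `1 = (y⁻¹)^(p-1) + u^p (x⁻¹)^(p^2-p-1) = u r` with
`r = u^(p-2) (x⁻¹)^(p(p-1)) + u^(p-1) (x⁻¹)^(p^2-p-1) ∈ V`. So `w = u⁻¹ = r ∈ V`. -/
def S_VAL : Prop :=
  ∀ (p : ℕ) [Fact p.Prime] (L : Type) [Field L] (V : Subring L), (∀ w : L, w ∈ V ∨ w⁻¹ ∈ V) →
    ∀ x y : L, y ^ p - y = x ^ (p + 1) → x ∈ V ∨ (x ≠ 0 ∧ y / x ^ p ∈ V)

/-- (helper284) the local theorem -/
def S_PUR : Prop :=
  ∀ (p : ℕ) [Fact p.Prime] (A L : Type) [CommRing A] [IsDomain A] [CharP A p] [IsNoetherianRing A] [IsLocalRing A] [Field L]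
    [Algebra A L] [IsFractionRing A L], PB p A →
    (∀ w : L, (∃ a : A, algebraMap A L a = w ^ p) → ∃ a : A, algebraMap A L a = w) ∧
    ∀ x y : L, y ^ p - y = x ^ (p + 1) → ∃ (a : A) (w : L), x = algebraMap A L a + w ^ p

/-- JOB OMG. The differentials of a local ring of a smooth algebra have a basis of exact differentials.
Proof. `Ω[B⁄K]` is finite projective (`Algebra.Smooth`: `Mathlib.RingTheory.Smooth.Kaehler`), `Ω[A⁄K]` is its localization
(`KaehlerDifferential.isLocalizedModule` or `IsLocalizedModule`/`A ⊗[B] Ω[B⁄K] ≃ Ω[A⁄K]` for localizations, or: `A` is formally smooth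
over `K` and essentially of finite type), so it is a finitely presented flat `A`-module; it is spanned by the differentials
`D a` (`KaehlerDifferential.span_range_derivation`); use `Module.exists_basis_of_span_of_flat`
(`Mathlib.RingTheory.LocalRing.Module`) and the finiteness of the index set of the basis (`Module.Finite`). -/
def S_OMG : Prop :=
  ∀ (K B A : Type) [Field K] [CommRing B] [CommRing A] [Algebra K B] [Algebra B A] [Algebra K A] [IsScalarTower K B A]
    [Algebra.Smooth K B] (Q : Ideal B) [Q.IsPrime] [IsLocalization.AtPrime A Q],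
    ∃ (n : ℕ) (x : Fin n → A) (b : Module.Basis (Fin n) A Ω[A⁄K]), ∀ i, b i = KaehlerDifferential.D K A (x i)

/-- JOB FIN. Proof. `B = K[b_1, ..., b_r]`, `K = K^p`, so `B = ∑ B^p b^β`, `0 ≤ β_i < p` (a monomial `c b^(pγ+β)` is
`(c^(1/p) b^γ)^p b^β`; or: `B` is a quotient of `MvPolynomial (Fin r) K`, induct on the polynomial; additivity: `(u+v)^p = u^p+v^p`).
In `A`: `a/s = a s^(p-1) / s^p`. -/
def S_FIN : Prop :=
  ∀ (p : ℕ) [Fact p.Prime] (K B A : Type) [Field K] [CharP K p] [CommRing B] [CommRing A] [Algebra K B] [Algebra B A]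
    [Algebra.FiniteType K B] (Q : Ideal B) [Q.IsPrime] [IsLocalization.AtPrime A Q], (∀ a : K, ∃ b : K, b ^ p = a) →
    ∃ (m : ℕ) (g : Fin m → A), ∀ a : A, ∃ c : Fin m → A, a = ∑ j, c j ^ p * g j

/-- JOB SPN. Proof. Let `C ⊆ A` be the subring of all `∑_α c_α^p x^α`, `α ∈ [0,p)^n` (it is a subring: `x_i^p` is a `p`-th power), or
`C = Subring.closure (p-th powers, x_i)`; `A` is a finite `C`-module by `g`, `C` is a local ring (`A` is integral over `C`) with maximal
ideal `n = m ∩ C`. `A` is formally unramified over `C`: for `a ∈ A` the differential `D_C a` is zero, because `Ω[A⁄K]` is spanned by the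
`D x_i` and `K ⊆ C` (`K = K^p`), so the `K`-derivation `A → Ω[A⁄C]` vanishes on the generators. So (`FormallyUnramified.map_maximalIdeal`
and separability of the residue extension, `Mathlib.RingTheory.Unramified.LocalRing`; the residue extension is also purely
inseparable: `a^p ∈ C`) `A = C + nA`: the residue fields are equal and `n A = m`. Nakayama (`Submodule.le_of_le_smul_of_le_jacobson_bot`
or `..._of_localized`): `A = C`. -/
def S_SPN : Prop :=
  ∀ (p : ℕ) [Fact p.Prime] (K A : Type) [Field K] [CharP K p] [CommRing A] [IsDomain A] [IsLocalRing A] [Algebra K A]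
    [IsNoetherianRing A], (∀ a : K, ∃ b : K, b ^ p = a) →
    ∀ (m : ℕ) (g : Fin m → A), (∀ a : A, ∃ c : Fin m → A, a = ∑ j, c j ^ p * g j) →
    ∀ (n : ℕ) (x : Fin n → A), Submodule.span A (Set.range fun i => KaehlerDifferential.D K A (x i)) = ⊤ →
    ∀ a : A, ∃ c : (Fin n → Fin p) → A, a = ∑ α, c α ^ p * ∏ i, x i ^ (α i : ℕ)

/-- JOB IND. Proof. The dual basis gives derivations `∂_i : A → A` over `K` with `∂_i x_j = δ_ij` (`Derivation` from
`KaehlerDifferential.linearMapEquivDerivation` applied to `b.coord i`), `∂_i (c^p u) = c^p ∂_i u`. Let `α` be of maximal total degree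
with `c_α ≠ 0` and apply `∂_1^(α_1) ... ∂_n^(α_n)`: `(∏ α_i!) c_α^p = 0`, and `α_i! ≠ 0` in `A` since `α_i < p`.
(Or by induction on the number of variables: if `∂` is a derivation with `∂ x = 1` and `∂ z_j = 0`, then `∑_(j<p) z_j x^j = 0`
implies all `z_j = 0`.) -/
def S_IND : Prop :=
  ∀ (p : ℕ) [Fact p.Prime] (K A : Type) [Field K] [CommRing A] [IsDomain A] [CharP A p] [Algebra K A]
    (n : ℕ) (x : Fin n → A) (b : Module.Basis (Fin n) A Ω[A⁄K]), (∀ i, b i = KaehlerDifferential.D K A (x i)) →
    ∀ c : (Fin n → Fin p) → A, ∑ α, c α ^ p * ∏ i, x i ^ (α i : ℕ) = 0 → ∀ α, c α = 0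

/-- (helper284) local rings of smooth algebras over a perfect field are free over their `p`-th powers -/
def S_SMO : Prop :=
  ∀ (p : ℕ) [Fact p.Prime] (K B A : Type) [Field K] [CharP K p] [CommRing B] [CommRing A] [IsDomain A] [Algebra K B]
    [Algebra B A] [Algebra.Smooth K B] (Q : Ideal B) [Q.IsPrime] [IsLocalization.AtPrime A Q], (∀ a : K, ∃ b : K, b ^ p = a) →
    PB p A

/-- JOB FLD. An element of a finitely generated field extension which is a `p^n`-th power for all `n` is algebraic.
Proof. Suppose `z` is transcendental over `K`. There is a transcendence basis `s` of `L/K` with `z ∈ s` and `L` is algebraic and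
finitely generated over `E = K(s)` (`IntermediateField.adjoin K s`), so `d = [L : E]` is finite. For `p^n > d` and `w^(p^n) = z` the
element `w` has degree `p^n` over `E`: `T^(p^n) - z` is irreducible over `E` as `z` is not a `p`-th power in `E`
(`X_pow_sub_C_irreducible_iff...` or Eisenstein at the variable `z`). (Other way: the degrees `[E(z^(1/p^n)) : E]` are unbounded
because `z^(1/p^(n+1)) ∉ E(z^(1/p^n))`.) -/
def S_FLD : Prop :=
  ∀ (p : ℕ) [Fact p.Prime] (K L : Type) [Field K] [Field L] [Algebra K L] [CharP K p] [Algebra.EssFiniteType K L] (z : L),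
    (∀ n : ℕ, ∃ w : L, w ^ p ^ n = z) → IsAlgebraic K z

/-- JOB RAT. Proof. Step 1: `x` is a `p`-th power. In lowest terms `x = r/s`, `y = a/b`; `b^p` and `s^(p+1)` are associated (the
numerator `a (a^(p-1) - b^(p-1))` of `y^p - y` is prime to `b`), so `s` is associated to `d^p` and `b` to `d^(p+1)` for a polynomial `d`
(unique factorization), and after changing `r`, `a` by constants: `x = r/d^p`, `y = a/d^(p+1)`, `r`, `a` prime to `d`,
`r^(p+1) = a^p - a d^(p^2-1)`. Derivative: `r^p r' = - d^(p^2-2) (a' d - a d')`. So `d^(p^2-2)` divides `r'`, `r' = d^(p^2-2) q`,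
`r^p q = -(a' d - a d')`. Suppose `q ≠ 0`; `R, A, D` the degrees of `r, a, d`: `(p^2-2) D ≤ R - 1`, `p R ≤ A + D - 1`. If
`A > (p+1) D` then `(p+1) R = p A` (compare the degrees in `r^(p+1) = a^p - a d^(p^2-1)`) and
`R (p - 1 - 1/p) ≤ D - 1 ≤ (R-1)/(p^2-2) - 1`: contradiction. If `A ≤ (p+1) D` then `p (p^2-2) D + p ≤ p R ≤ (p+2) D - 1`:
contradiction since `p^3 - 3p - 2 ≥ 0`. So `r' = 0`, `r` is a `p`-th power (coefficients in `ZMod p`), and so is `x`.
Step 2: if `x = x₁^p` then `y = (y - x₁^(p+1))^p = y₁^p` and `y₁ = y - x₁^(p+1)`, so `y₁^p - y₁ = x₁^(p+1)`. By induction `x` is a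
`p^n`-th power for all `n`, so it is constant (degrees of numerator and denominator are divisible by `p^n`). -/
def S_RAT : Prop :=
  ∀ (p : ℕ) [Fact p.Prime] (x y : RatFunc (ZMod p)), y ^ p - y = x ^ (p + 1) → ∃ a : ZMod p, x = RatFunc.C a

/-- JOB GAL. Proof: as the theorem `not_fg` of `Pool/Agent/Q284/PAC/Gal.lean` (on origin/main), with the prime numbers replaced by
infinitely many monic irreducible polynomials over `ZMod p` (unique factorization in `Polynomial (ZMod p)`). -/
def S_GAL : Prop :=
  ∀ (p : ℕ) [Fact p.Prime], p ≠ 2 → ∀ (K : Type) [Field K] (φ : Polynomial (ZMod p) →+* K),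
    (∀ g : Polynomial (ZMod p), IsSquare (φ g) → IsSquare g) →
    ∀ S : Finset (SeparableClosure K ≃ₐ[K] SeparableClosure K),
      (Subgroup.closure (S : Set (SeparableClosure K ≃ₐ[K] SeparableClosure K))).topologicalClosure ≠ ⊤

/-- restriction of sections -/
def res {X : Scheme.{0}} {U V : X.Opens} (h : V ≤ U) (s : Γ(X, U)) : Γ(X, V) := (X.presheaf.map (homOfLE h).op).hom s

/-- `H^1(X, O_X) = 0`: for every open cover every Čech 1-cocycle of the structure sheaf is a coboundary -/
def H1Zero (X : Scheme.{0}) : Prop :=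
  ∀ (ι : Type) (U : ι → X.Opens), (⨆ i, U i) = ⊤ → ∀ s : ∀ i j, Γ(X, U i ⊓ U j),
    (∀ i j k, res (V := U i ⊓ U j ⊓ U k) inf_le_left (s i j) +
        res (V := U i ⊓ U j ⊓ U k) (inf_le_inf_right (U k) inf_le_right) (s j k) =
      res (V := U i ⊓ U j ⊓ U k) (inf_le_inf_right (U k) inf_le_left) (s i k)) →
    ∃ g : ∀ i, Γ(X, U i), ∀ i j, s i j = res inf_le_right (g j) - res inf_le_left (g i)

/-- JOB CEC. Proof. For `x ∈ X` choose `a_x ∈ O_x`, `w_x` with `f = a_x + w_x^p` and an open `U_x ∋ x` on which `a_x` is a section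
`b_x ∈ Γ(U_x)`. On `U_x ∩ U_y`: `(w_y - w_x)^p = b_x - b_y` is a section, so by the hypothesis on the stalks `w_y - w_x` is in all the
stalks at the points of `U_x ∩ U_y`, so it is (the germ at the generic point of) a unique section `s_xy ∈ Γ(U_x ∩ U_y)` (gluing; the maps
to the function field are injective; if an intersection is empty, everything is zero; in an irreducible space nonempty opens meet).
`s` is a cocycle; `H1Zero` (with `ι = X`) gives `g_x ∈ Γ(U_x)` with `s_xy = g_y - g_x`. So `w = w_x - g_x` does not depend on `x`, and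
`f - w^p = a_x + w_x^p - (w_x - g_x)^p = a_x + g_x^p` is a section on every `U_x`, so it is a global section. -/
def S_CEC : Prop :=
  ∀ (p : ℕ) [Fact p.Prime] (X : Scheme.{0}) [IsIntegral X], CharP X.functionField p → H1Zero X →
    (∀ (x : X) (w : X.functionField), (∃ a : X.presheaf.stalk x, algebraMap (X.presheaf.stalk x) X.functionField a = w ^ p) →
      ∃ a : X.presheaf.stalk x, algebraMap (X.presheaf.stalk x) X.functionField a = w) →
    ∀ f : X.functionField,
      (∀ x : X, ∃ (a : X.presheaf.stalk x) (w : X.functionField),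
        f = algebraMap (X.presheaf.stalk x) X.functionField a + w ^ p) →
      ∃ (g : Γ(X, ⊤)) (w : X.functionField), f = (X.presheaf.germ ⊤ (genericPoint X) trivial).hom g + w ^ p

/-- JOB STK. Proof. `Smooth.exists_isStandardSmooth` (or `Smooth.smooth_appLE` with `U = ⊤` and any affine `V ∋ x`), the stalk is the
localization of `Γ(X, V)` at a prime (`IsAffineOpen.isLocalization_stalk`), `Γ(Spec K, ⊤) ≅ K`; then `S_SMO`. Noetherian: `Γ(X, V)` is
a finitely generated `K`-algebra. -/
def S_STK : Prop :=
  S_SMO → ∀ (p : ℕ) [Fact p.Prime] (K : Type) [Field K] [CharP K p], (∀ a : K, ∃ b : K, b ^ p = a) →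
    ∀ (X : Scheme.{0}) (f : X ⟶ Spec (.of K)) [Smooth f] [IsIntegral X] (x : X),
      PB p (X.presheaf.stalk x) ∧ IsNoetherianRing (X.presheaf.stalk x) ∧ CharP (X.presheaf.stalk x) p

/-- JOB GLO. The global functions of a proper geometrically integral scheme are the constants.
Proof. `isField_of_universallyClosed`, `finite_appTop_of_universallyClosed` (`Mathlib.AlgebraicGeometry.Morphisms.Proper`): `Γ(X, ⊤)`
is a field, finite over `K`. Take a nonempty affine open `Spec A` of `X`; `A ⊗[K] AlgebraicClosure K` is a domain (see the proof of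
`exists_section` in `Pool/Agent/Q284/PAC/Sch.lean`, lines up to `h5`), so by `noroot_frac` of `Pool/Agent/Q284/PAC/Pt.lean` applied to
the minimal polynomial over `K` of `g` (restricted to `A`): if its degree is at least 2 it has no root in `K`, so none in
`FractionRing A`, contradiction. So `g ∈ K`. -/
def S_GLO : Prop :=
  ∀ (K : Type) [Field K] (X : Scheme.{0}) (f : X ⟶ Spec (.of K)) [IsProper f] [GeometricallyIntegral f] (g : Γ(X, ⊤)),
    ∃ c : K, f.appTop.hom ((Scheme.ΓSpecIso (.of K)).inv.hom c) = g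

end Pool.Agent.Q284.NP
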