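import Mathlib

/-!
# Fields in which given systems have no solutions: existentially closed fields

Let `P` be a set of finite systems of polynomial equations over a field `k`. An extension of `k` is good if no system of `P` has a
solution in it. Every good extension of `k` has a good extension which is existentially closed in all its good extensions.
-/

set_option autoImplicit false

namespace Pool.Agent.Q284.NP

/-- a finite system of polynomial equations -/
abbrev Sys (K : Type) [Field K] : Type := Σ n : ℕ, Finset (MvPolynomial (Fin n) K)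

/-- the system has a solution in the extension `L` -/
def Sol {K L : Type} [Field K] [Field L] (f : K →+* L) (s : Sys K) : Prop :=
  ∃ x : Fin s.1 → L, ∀ p ∈ s.2, p.eval₂ f x = 0

/-- no system of `P` has a solution -/
def Good {k L : Type} [Field k] [Field L] (P : Set (Sys k)) (f : k →+* L) : Prop := ∀ s ∈ P, ¬ Sol f s

theorem Sol.comp {K L M : Type} [Field K] [Field L] [Field M] {f : K →+* L} {s : Sys K} (h : Sol f s) (g : L →+* M) :
    Sol (g.comp f) s := by
  obtain ⟨x, hx⟩ := h
  refine ⟨g ∘ x, fun p hp => ?_⟩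
  rw [← MvPolynomial.eval₂_comp_left, hx p hp, map_zero]

variable {k K : Type} [Field k] [Field K] (P : Set (Sys k)) (c : k →+* K)

/-- all the systems of `T` have a solution in one good extension -/
def Poss (T : Set (Sys K)) : Prop :=
  ∃ (L : Type) (_ : Field L) (f : K →+* L), Good P (f.comp c) ∧ ∀ s ∈ T, Sol f s

theorem poss_of_finite (T : Set (Sys K))
    (h : ∀ F : Finset (Sys K), ↑F ⊆ T → Poss P c (F : Set (Sys K))) : Poss P c T := by
  classical
  choose L fld f hg hs using h
  let I : Type := {F : Finset (Sys K) // (F : Set (Sys K)) ⊆ T}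
  let : ∀ i : I, Field (L i.1 i.2) := fun i => fld i.1 i.2
  let R : Type := ∀ i : I, L i.1 i.2
  let e : Sys K → R := fun s i => if s ∈ i.1 then 0 else 1
  let J : Ideal R := Ideal.span (e '' T)
  have hJ : J ≠ ⊤ := by
    intro h1
    have h2 : (1 : R) ∈ J := by rw [h1]; trivial
    obtain ⟨F', hF', h3⟩ := Submodule.mem_span_finite_of_mem_span h2
    obtain ⟨F, hF, rfl⟩ := Finset.subset_set_image_iff.1 hF'
    let i : I := ⟨F, hF⟩
    have h4 : Submodule.span R ((F.image e : Finset R) : Set R) ≤ RingHom.ker (Pi.evalRingHom (fun i : I => L i.1 i.2) i) := by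
      refine Submodule.span_le.2 ?_
      intro r hr
      simp only [Finset.coe_image, Set.mem_image, Finset.mem_coe] at hr
      obtain ⟨s, hs1, rfl⟩ := hr
      change e s i = 0
      simp only [e]
      rw [if_pos]
      exact hs1
    have h5 := h4 h3
    rw [RingHom.mem_ker, map_one] at h5
    exact one_ne_zero h5
  obtain ⟨M, hM, hle⟩ := Ideal.exists_le_maximal J hJ
  let : Field (R ⧸ M) := Ideal.Quotient.field M
  let φ : K →+* R := RingHom.pi (fun i : I => f i.1 i.2)
  let g : K →+* R ⧸ M := (Ideal.Quotient.mk M).comp φ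
  refine ⟨R ⧸ M, inferInstance, g, ?_, ?_⟩
  · intro s hs1 hsol
    obtain ⟨x, hx⟩ := hsol
    choose r hr using fun j => Ideal.Quotient.mk_surjective (x j)
    have hr' : x = Ideal.Quotient.mk M ∘ r := funext fun j => (hr j).symm
    have hmem : ∀ p ∈ s.2, p.eval₂ (φ.comp c) r ∈ M := by
      intro p hp
      have h0 : Ideal.Quotient.mk M (p.eval₂ (φ.comp c) r) = 0 := by
        rw [MvPolynomial.eval₂_comp_left, ← hr']
        exact hx p hp
      exact Ideal.Quotient.eq_zero_iff_mem.1 h0
    have hno : ∀ i : I, ∃ p ∈ s.2, p.eval₂ ((f i.1 i.2).comp c) (fun j => r j i) ≠ 0 := by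
      intro i
      by_contra hcon
      push Not at hcon
      exact hg i.1 i.2 s hs1 ⟨fun j => r j i, hcon⟩
    choose q hq hq0 using hno
    have hev : ∀ (p : MvPolynomial (Fin s.1) k) (i : I), p.eval₂ (φ.comp c) r i = p.eval₂ ((f i.1 i.2).comp c) (fun j => r j i) := by
      intro p i
      change Pi.evalRingHom (fun i : I => L i.1 i.2) i (p.eval₂ (φ.comp c) r) = _
      rw [MvPolynomial.eval₂_comp_left]
      rfl
    let u : MvPolynomial (Fin s.1) k → R := fun p i => if q i = p then (p.eval₂ ((f i.1 i.2).comp c) (fun j => r j i))⁻¹ else 0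
    have hone : ∑ p ∈ s.2, u p * p.eval₂ (φ.comp c) r = 1 := by
      funext i
      rw [Finset.sum_apply, Pi.one_apply, Finset.sum_eq_single (q i)]
      · rw [Pi.mul_apply, hev]
        simp only [u]
        rw [if_pos trivial]
        exact inv_mul_cancel₀ (hq0 i)
      · intro p _ hp
        rw [Pi.mul_apply]
        simp only [u]
        rw [if_neg (fun h => hp h.symm), zero_mul]
      · intro h
        exact absurd (hq i) h
    have h1 : (1 : R) ∈ M := by
      rw [← hone]
      exact Ideal.sum_mem _ fun p hp => Ideal.mul_mem_left _ _ (hmem p hp)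
    exact hM.ne_top (Ideal.eq_top_of_isUnit_mem _ h1 isUnit_one)
  · intro s hs1
    let X : Fin s.1 → R := fun j i => if h : s ∈ i.1 then (hs i.1 i.2 s h).choose j else 0
    refine ⟨Ideal.Quotient.mk M ∘ X, fun p hp => ?_⟩
    rw [← MvPolynomial.eval₂_comp_left, Ideal.Quotient.eq_zero_iff_mem]
    apply hle
    have h1 : p.eval₂ φ X = p.eval₂ φ X * e s := by
      funext i
      rw [Pi.mul_apply]
      by_cases h : s ∈ i.1
      · have h2 : Pi.evalRingHom (fun i : I => L i.1 i.2) i (p.eval₂ φ X) = 0 := by
          rw [MvPolynomial.eval₂_comp_left]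
          have h3 := (hs i.1 i.2 s h).choose_spec p hp
          have h4 : (Pi.evalRingHom (fun i : I => L i.1 i.2) i).comp φ = f i.1 i.2 := RingHom.ext fun _ => rfl
          have h5 : (Pi.evalRingHom (fun i : I => L i.1 i.2) i) ∘ X = (hs i.1 i.2 s h).choose := by
            funext j
            change X j i = _
            simp only [X]
            rw [dif_pos h]
          rw [h4, h5]
          exact h3
        change p.eval₂ φ X i = 0 at h2
        rw [h2, zero_mul]
      · simp only [e]
        rw [if_neg h, mul_one]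
    rw [h1]
    exact Ideal.mul_mem_left _ _ (Ideal.subset_span ⟨s, hs1, rfl⟩)

variable {P c} in
theorem Poss.mono {T T' : Set (Sys K)} (h : Poss P c T) (hT : T' ⊆ T) : Poss P c T' := by
  obtain ⟨L, _, f, hg, hs⟩ := h
  exact ⟨L, _, f, hg, fun s hs' => hs s (hT hs')⟩

/-- one step -/
theorem step (h : Good P c) :
    ∃ (L : Type) (_ : Field L) (f : K →+* L), Good P (f.comp c) ∧
      ∀ (M : Type) (_ : Field M) (g : L →+* M), Good P (g.comp (f.comp c)) → ∀ s : Sys K, Sol (g.comp f) s → Sol f s := by
  have hF : Order.IsOfFiniteCharacter {T : Set (Sys K) | Poss P c T} := by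
    intro T
    refine ⟨fun hT T' hT' _ => Poss.mono hT hT', fun hT => poss_of_finite P c T fun F hFT => hT _ hFT F.finite_toSet⟩
  have h0 : (∅ : Set (Sys K)) ∈ {T : Set (Sys K) | Poss P c T} :=
    ⟨K, inferInstance, RingHom.id K, h, fun s hs => absurd hs (Set.notMem_empty s)⟩
  obtain ⟨T, -, hT⟩ := hF.exists_maximal h0
  obtain ⟨L, fL, f, hg, hs⟩ := hT.prop
  refine ⟨L, fL, f, hg, fun M _ g hM s hsol => ?_⟩
  apply hs
  have h1 : Poss P c (insert s T) := by
    refine ⟨M, inferInstance, g.comp f, hM, ?_⟩
    rintro t (rfl | ht)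
    · exact hsol
    · exact (hs t ht).comp g
  exact hT.le_of_ge h1 (Set.subset_insert s T) (Set.mem_insert s T)

/-- the union of a chain of fields -/
theorem chain_limit (G : ℕ → Type) [∀ n, Field (G n)] (ι : ∀ n, G n →+* G (n + 1)) :
    ∃ (K : Type) (_ : Field K) (u : ∀ n, G n →+* K), (∀ n, (u (n + 1)).comp (ι n) = u n) ∧ ∀ x : K, ∃ n y, u n y = x := by
  let F : ∀ i j, i ≤ j → G i →+* G j := fun i j h =>
    Nat.leRec (motive := fun j _ => G i →+* G j) (RingHom.id _) (fun {k} _ f => (ι k).comp f) h
  have hself : ∀ i, F i i (le_refl i) = RingHom.id _ := fun i => Nat.leRec_self _ _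
  have hsucc : ∀ i j (h : i ≤ j), F i (j + 1) (Nat.le_succ_of_le h) = (ι j).comp (F i j h) := fun i j h =>
    Nat.leRec_succ _ _ h
  have htrans : ∀ i j (hij : i ≤ j) k (hjk : j ≤ k), (F j k hjk).comp (F i j hij) = F i k (hij.trans hjk) := by
    intro i j hij k hjk
    induction k, hjk using Nat.le_induction with
    | base => rw [hself]; rfl
    | succ k hk ih =>
      rw [hsucc j k hk, hsucc i k (hij.trans hk), ← ih]
      rfl
  have hD : DirectedSystem G (fun i j h => F i j h) :=
    { map_self := fun i x => by rw [hself]; rfl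
      map_map := fun k j i hij hjk x => by rw [← htrans _ _ hij _ hjk]; rfl }
  let fK : Field (Ring.DirectLimit G (fun i j h => F i j h)) := Field.DirectLimit.field G F
  refine ⟨Ring.DirectLimit G (fun i j h => F i j h), fK, fun n => Ring.DirectLimit.of G (fun i j h => F i j h) n, ?_, ?_⟩
  · intro n
    ext x
    have h1 : F n (n + 1) (Nat.le_succ n) x = ι n x := by
      have := hsucc n n (le_refl n)
      rw [hself] at this
      exact congrArg (fun g : G n →+* G (n + 1) => g x) this
    have h2 := Ring.DirectLimit.of_f (G := G) (f := fun i j h => F i j h) (Nat.le_succ n) x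
    rw [← h2, h1]
    rfl
  · intro x
    obtain ⟨n, y, hy⟩ := Ring.DirectLimit.exists_of x
    exact ⟨n, y, hy⟩

variable {k : Type} [Field k] (P : Set (Sys k))

/-- a good extension of `k` -/
structure Obj where
  K : Type
  [fld : Field K]
  c : k →+* K
  good : Good P c

attribute [instance] Obj.fld

variable {P}

theorem exists_next (o : Obj P) : ∃ (p : Obj P) (f : o.K →+* p.K), f.comp o.c = p.c ∧
    ∀ (M : Type) (_ : Field M) (g : p.K →+* M), Good P (g.comp p.c) → ∀ s : Sys o.K, Sol (g.comp f) s → Sol f s := by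
  obtain ⟨L, _, f, hL, h⟩ := step P o.c o.good
  exact ⟨{K := L, c := f.comp o.c, good := hL}, f, rfl, h⟩

noncomputable def next (o : Obj P) : Obj P := (exists_next o).choose

noncomputable def emb (o : Obj P) : o.K →+* (next o).K := (exists_next o).choose_spec.choose

theorem emb_c (o : Obj P) : (emb o).comp o.c = (next o).c := (exists_next o).choose_spec.choose_spec.1

theorem emb_ec (o : Obj P) : ∀ (M : Type) (_ : Field M) (g : (next o).K →+* M), Good P (g.comp (next o).c) →
    ∀ s : Sys o.K, Sol (g.comp (emb o)) s → Sol (emb o) s := (exists_next o).choose_spec.choose_spec.2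

noncomputable def seq (o : Obj P) : ℕ → Obj P
  | 0 => o
  | n + 1 => next (seq o n)

theorem exists_seq {K₀ : Type} [Field K₀] (c₀ : k →+* K₀) (h₀ : Good P c₀) :
    ∃ (S : ℕ → Obj P) (j : ∀ n, (S n).K →+* (S (n + 1)).K) (f : K₀ →+* (S 0).K), f.comp c₀ = (S 0).c ∧
      (∀ n, (j n).comp (S n).c = (S (n + 1)).c) ∧
      ∀ (n : ℕ) (M : Type) (_ : Field M) (g : (S (n + 1)).K →+* M), Good P (g.comp (S (n + 1)).c) →
        ∀ s : Sys (S n).K, Sol (g.comp (j n)) s → Sol (j n) s :=
  ⟨seq {K := K₀, c := c₀, good := h₀}, fun n => emb (seq _ n), RingHom.id K₀, rfl, fun _ => emb_c _, fun _ => emb_ec _⟩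

/-- an existentially closed good extension -/
theorem exists_closed {K₀ : Type} [Field K₀] (c₀ : k →+* K₀) (h₀ : Good P c₀) :
    ∃ (K : Type) (_ : Field K) (f : K₀ →+* K), Good P (f.comp c₀) ∧
      ∀ (M : Type) (_ : Field M) (g : K →+* M), Good P (g.comp (f.comp c₀)) →
        ∀ s : Sys K, Sol g s → Sol (RingHom.id K) s := by
  classical
  obtain ⟨S, j, f, hf, hj, hec⟩ := exists_seq c₀ h₀
  obtain ⟨K, _, u, hu, hex⟩ := chain_limit (fun n => (S n).K) j
  have huc : ∀ n, (u n).comp (S n).c = (u 0).comp (f.comp c₀) := by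
    intro n
    induction n with
    | zero => rw [hf]
    | succ n ih => rw [← ih, ← hu n, RingHom.comp_assoc, hj]
  have hinj : ∀ n, Function.Injective (u n) := fun n => (u n).injective
  have hmono : ∀ n k, Set.range (u n) ⊆ Set.range (u (n + k)) := by
    intro n k
    induction k with
    | zero => exact subset_rfl
    | succ k ih =>
      refine ih.trans ?_
      rintro _ ⟨y, rfl⟩
      exact ⟨j _ y, by rw [← hu (n + k)]; rfl⟩
  refine ⟨K, inferInstance, (u 0).comp f, ?_, ?_⟩
  · intro s hs1 hsol
    obtain ⟨x, hx⟩ := hsol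
    have hfin : ∀ T : Finset (Fin s.1), ∃ N, ∀ j ∈ T, x j ∈ Set.range (u N) := by
      intro T
      induction T using Finset.induction_on with
      | empty => exact ⟨0, by simp⟩
      | insert c C _ ih =>
        obtain ⟨N, hN⟩ := ih
        obtain ⟨m, y, hy⟩ := hex (x c)
        refine ⟨N + m, ?_⟩
        intro z hz
        rw [Finset.mem_insert] at hz
        rcases hz with rfl | hz
        · have := hmono m N ⟨y, hy⟩
          rwa [add_comm] at this
        · exact hmono N m (hN z hz)
    obtain ⟨N, hN⟩ := hfin Finset.univ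
    choose y hy using fun j => hN j (Finset.mem_univ j)
    refine (S N).good s hs1 ⟨y, fun p hp => ?_⟩
    apply (u N).injective
    rw [map_zero, MvPolynomial.eval₂_comp_left, huc N]
    have h2 : (u N : (S N).K → K) ∘ y = x := funext hy
    rw [h2]
    exact hx p hp
  · intro M _ g hM s hs
    rw [RingHom.comp_assoc] at hM
    -- all the coefficients come from one step
    have hfin : ∀ C : Finset K, ∃ N, (C : Set K) ⊆ Set.range (u N) := by
      intro C
      induction C using Finset.induction_on with
      | empty => exact ⟨0, by simp⟩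
      | insert c C _ ih =>
        obtain ⟨N, hN⟩ := ih
        obtain ⟨m, y, hy⟩ := hex c
        refine ⟨N + m, ?_⟩
        intro z hz
        rw [Finset.coe_insert, Set.mem_insert_iff] at hz
        rcases hz with rfl | hz
        · have := hmono m N ⟨y, hy⟩
          rwa [add_comm] at this
        · exact hmono N m (hN hz)
    obtain ⟨N, hN⟩ := hfin (s.2.biUnion fun p => p.coeffs)
    have hp : ∀ p ∈ s.2, ∃ q : MvPolynomial (Fin s.1) (S N).K, MvPolynomial.map (u N) q = p := by
      intro p hp
      have h1 : p ∈ Set.range (MvPolynomial.map (u N)) := by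
        rw [MvPolynomial.mem_range_map_iff_coeffs_subset]
        refine subset_trans ?_ hN
        intro z hz
        rw [Finset.mem_coe, Finset.mem_biUnion]
        exact ⟨p, hp, hz⟩
      exact h1
    choose q hq using hp
    let s' : Sys (S N).K := ⟨s.1, s.2.attach.image fun p => q p.1 p.2⟩
    have h1 : Sol (((g.comp (u (N + 1)))).comp (j N)) s' := by
      obtain ⟨x, hx⟩ := hs
      refine ⟨x, ?_⟩
      intro r hr
      rw [Finset.mem_image] at hr
      obtain ⟨p, -, rfl⟩ := hr
      rw [RingHom.comp_assoc, hu N, ← MvPolynomial.eval₂_map, hq]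
      exact hx p.1 p.2
    have h2 := hec N M inferInstance (g.comp (u (N + 1))) (by
      rw [RingHom.comp_assoc, huc]
      exact hM) s' h1
    obtain ⟨x, hx⟩ := h2
    refine ⟨u (N + 1) ∘ x, fun p hp => ?_⟩
    have h3 := hx (q p hp) (Finset.mem_image.2 ⟨⟨p, hp⟩, Finset.mem_attach _ _, rfl⟩)
    have h4 : p.eval₂ (RingHom.id K) (u (N + 1) ∘ x) = (q p hp).eval₂ ((u (N + 1)).comp (j N)) (u (N + 1) ∘ x) := by
      conv_lhs => rw [← hq p hp, MvPolynomial.eval₂_map]
      rw [RingHom.id_comp, hu N]
    rw [h4, ← MvPolynomial.eval₂_comp_left, h3, map_zero]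

end Pool.Agent.Q284.NP
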