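import Pool.Agent.Q284.NP.Stm
import Pool.Agent.Q284.NP.Eng
import Pool.Agent.Q284.PAC.Pt

/-!
# The systems, and the fraction field of an affine variety
-/

set_option autoImplicit false

namespace Pool.Agent.Q284.NP

open scoped TensorProduct

/-- `q` as a polynomial in one of one variables -/
noncomputable def polQ {k : Type} [Field k] (q : Polynomial k) : MvPolynomial (Fin 1) k :=
  Polynomial.aeval (MvPolynomial.X (0 : Fin 1)) q

/-- the system `q(x) = 0` -/
noncomputable def sysQ {k : Type} [Field k] (q : Polynomial k) : Sys k := ⟨1, {polQ q}⟩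

theorem sol_sysQ {k L : Type} [Field k] [Field L] (f : k →+* L) (q : Polynomial k) :
    Sol f (sysQ q) ↔ ∃ x : L, q.eval₂ f x = 0 := by
  have h : ∀ x : Fin 1 → L, (polQ q).eval₂ f x = q.eval₂ f (x 0) := by
    intro x
    unfold polQ
    rw [Polynomial.aeval_def]
    have h1 := Polynomial.hom_eval₂ q (algebraMap k (MvPolynomial (Fin 1) k)) (MvPolynomial.eval₂Hom f x) (MvPolynomial.X 0)
    rw [MvPolynomial.coe_eval₂Hom, MvPolynomial.eval₂_X] at h1
    rw [h1]
    congr 1
    ext a
    simp [MvPolynomial.algebraMap_eq]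
  constructor
  · rintro ⟨v, hv⟩
    change Fin 1 → L at v
    change ∀ r ∈ ({polQ q} : Finset (MvPolynomial (Fin 1) k)), r.eval₂ f v = 0 at hv
    exact ⟨v 0, by rw [← h]; exact hv _ (Finset.mem_singleton_self _)⟩
  · rintro ⟨x, hx⟩
    change ∃ v : Fin 1 → L, ∀ r ∈ ({polQ q} : Finset (MvPolynomial (Fin 1) k)), r.eval₂ f v = 0
    refine ⟨fun _ => x, fun r hr => ?_⟩
    rw [Finset.mem_singleton.1 hr, h]
    exact hx

/-- `y^p - y - x^(p+1)` -/
noncomputable def pol1 (p : ℕ) (k : Type) [Field k] : MvPolynomial (Fin 3) k :=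
  MvPolynomial.X 1 ^ p - MvPolynomial.X 1 - MvPolynomial.X 0 ^ (p + 1)

/-- `z x - 1` -/
noncomputable def pol2 (k : Type) [Field k] : MvPolynomial (Fin 3) k := MvPolynomial.X 2 * MvPolynomial.X 0 - 1

/-- the system `y^p - y = x^(p+1)`, `z x = 1` -/
noncomputable def sysY (p : ℕ) (k : Type) [Field k] : Sys k := by
  classical
  exact ⟨3, {pol1 p k, pol2 k}⟩

theorem sol_sysY {k L : Type} [Field k] [Field L] (p : ℕ) (f : k →+* L) :
    Sol f (sysY p k) ↔ ∃ x y : L, y ^ p - y = x ^ (p + 1) ∧ x ≠ 0 := by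
  classical
  have h1 : ∀ v : Fin 3 → L, (pol1 p k).eval₂ f v = v 1 ^ p - v 1 - v 0 ^ (p + 1) := by
    intro v
    unfold pol1
    rw [MvPolynomial.eval₂_sub, MvPolynomial.eval₂_sub, MvPolynomial.eval₂_pow, MvPolynomial.eval₂_pow,
        MvPolynomial.eval₂_X, MvPolynomial.eval₂_X]
  have h2 : ∀ v : Fin 3 → L, (pol2 k).eval₂ f v = v 2 * v 0 - 1 := by
    intro v
    unfold pol2
    rw [MvPolynomial.eval₂_sub, MvPolynomial.eval₂_mul, MvPolynomial.eval₂_one, MvPolynomial.eval₂_X, MvPolynomial.eval₂_X]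
  constructor
  · rintro ⟨v, hv⟩
    change Fin 3 → L at v
    change ∀ r ∈ ({pol1 p k, pol2 k} : Finset (MvPolynomial (Fin 3) k)), r.eval₂ f v = 0 at hv
    have h3 := hv (pol1 p k) (Finset.mem_insert_self _ _)
    have h4 := hv (pol2 k) (Finset.mem_insert_of_mem (Finset.mem_singleton_self _))
    rw [h1] at h3
    rw [h2] at h4
    refine ⟨v 0, v 1, sub_eq_zero.1 h3, fun h0 => ?_⟩
    rw [h0, mul_zero, zero_sub, neg_eq_zero] at h4
    exact one_ne_zero h4
  · rintro ⟨x, y, h, hx⟩
    change ∃ v : Fin 3 → L, ∀ r ∈ ({pol1 p k, pol2 k} : Finset (MvPolynomial (Fin 3) k)), r.eval₂ f v = 0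
    refine ⟨![x, y, x⁻¹], fun r hr => ?_⟩
    rw [Finset.mem_insert, Finset.mem_singleton] at hr
    rcases hr with rfl | rfl
    · rw [h1]
      exact sub_eq_zero.2 h
    · rw [h2]
      change x⁻¹ * x - 1 = 0
      rw [inv_mul_cancel₀ hx, sub_self]

/-- the forbidden systems -/
def PP (p : ℕ) (k : Type) [Field k] : Set (Sys k) :=
  {s | (∃ q : Polynomial k, Irreducible q ∧ q.degree ≠ 1 ∧ s = sysQ q) ∨ s = sysY p k}

theorem good_iff {k L : Type} [Field k] [Field L] (p : ℕ) (f : k →+* L) :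
    Good (PP p k) f ↔ (∀ q : Polynomial k, Irreducible q → q.degree ≠ 1 → ∀ x : L, q.eval₂ f x ≠ 0) ∧
      ∀ x y : L, y ^ p - y = x ^ (p + 1) → x = 0 := by
  constructor
  · intro h
    refine ⟨fun q hq hd x hx => h (sysQ q) (Or.inl ⟨q, hq, hd, rfl⟩) ((sol_sysQ f q).2 ⟨x, hx⟩), fun x y hxy => ?_⟩
    by_contra hx
    exact h (sysY p k) (Or.inr rfl) ((sol_sysY p f).2 ⟨x, y, hxy, hx⟩)
  · rintro ⟨h1, h2⟩ s (⟨q, hq, hd, rfl⟩ | rfl) hs
    · obtain ⟨x, hx⟩ := (sol_sysQ f q).1 hs
      exact h1 q hq hd x hx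
    · obtain ⟨x, y, hxy, hx⟩ := (sol_sysY p f).1 hs
      exact hx (h2 x y hxy)

/-- `k` is algebraically closed in good extensions -/
theorem mem_range_of_good {k L : Type} [Field k] [Field L] [Algebra k L]
    (h : ∀ q : Polynomial k, Irreducible q → q.degree ≠ 1 → ∀ x : L, q.eval₂ (algebraMap k L) x ≠ 0)
    (x : L) (hx : IsAlgebraic k x) : ∃ a : k, algebraMap k L a = x := by
  have hint : IsIntegral k x := hx.isIntegral
  by_cases hd : (minpoly k x).degree = 1
  · exact minpoly.mem_range_of_degree_eq_one k x hd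
  · exact absurd (minpoly.aeval k x) (h _ (minpoly.irreducible hint) hd x)

/-- the function field -/
theorem good_frac (hfld : S_FLD) (p : ℕ) [Fact p.Prime] {k : Type} [Field k] (K : Type) [Field K] [CharP K p] (c : k →+* K)
    (h : Good (PP p k) c) (A : Type) [CommRing A] [Algebra K A] [Algebra.FiniteType K A] [IsDomain A]
    [IsDomain (A ⊗[K] AlgebraicClosure K)]
    (hp : ∀ x y : FractionRing A, y ^ p - y = x ^ (p + 1) → ∃ w, x = w ^ p) :
    Good (PP p k) (((algebraMap A (FractionRing A)).comp (algebraMap K A)).comp c) := by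
  rw [good_iff] at h ⊢
  obtain ⟨h1, h2⟩ := h
  have hcl : ∀ q : Polynomial K, Irreducible q → q.degree ≠ 1 → ∀ x : FractionRing A,
      q.eval₂ (algebraMap K (FractionRing A)) x ≠ 0 := by
    intro q hq hd x
    have h3 := PAC.noroot_frac K A q (fun z hz => hd (Polynomial.degree_eq_one_of_irreducible_of_root hq hz)) x
    rwa [← IsScalarTower.algebraMap_eq K A (FractionRing A)] at h3
  refine ⟨?_, ?_⟩
  · intro q hq hd x hx
    have h3 := PAC.noroot_frac K A (q.map c) (fun z hz => h1 q hq hd z (by rwa [Polynomial.eval_map] at hz)) x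
    apply h3
    rw [Polynomial.eval₂_map]
    exact hx
  · intro x y hxy
    have hcF : CharP (FractionRing A) p := charP_of_injective_algebraMap (algebraMap K (FractionRing A)).injective p
    have hpow : ∀ (n : ℕ) (x y : FractionRing A), y ^ p - y = x ^ (p + 1) → ∃ w, w ^ p ^ n = x := by
      intro n
      induction n with
      | zero => intro x y _; exact ⟨x, by rw [pow_zero, pow_one]⟩
      | succ n ih =>
        intro x y hxy
        obtain ⟨w, rfl⟩ := hp x y hxy
        have h3 : y = (y - w ^ (p + 1)) ^ p := by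
          rw [sub_pow_char, ← pow_mul, mul_comm (p + 1) p, pow_mul, ← hxy]
          ring
        obtain ⟨v, hv⟩ := ih w (y - w ^ (p + 1)) (by rw [← h3]; ring)
        exact ⟨v, by rw [pow_succ, pow_mul, hv]⟩
    have halg : IsAlgebraic K x := hfld p K (FractionRing A) x fun n => hpow n x y hxy
    obtain ⟨a, rfl⟩ := mem_range_of_good hcl x halg
    have halgy : IsAlgebraic K y := by
      refine ⟨Polynomial.X ^ p - Polynomial.X - Polynomial.C (a ^ (p + 1)), ?_, ?_⟩
      · intro h0
        have h3 : (Polynomial.X ^ p - Polynomial.X - Polynomial.C (a ^ (p + 1)) : Polynomial K).coeff p = 1 := by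
          have hp1 : p ≠ 0 := (Fact.out : p.Prime).ne_zero
          have hp2 : 1 ≠ p := (Fact.out : p.Prime).one_lt.ne
          rw [Polynomial.coeff_sub, Polynomial.coeff_sub, Polynomial.coeff_X_pow, if_pos rfl, Polynomial.coeff_X, if_neg hp2,
            Polynomial.coeff_C, if_neg hp1, sub_zero, sub_zero]
        rw [h0, Polynomial.coeff_zero] at h3
        exact zero_ne_one h3
      · rw [map_sub, map_sub, map_pow, Polynomial.aeval_X, Polynomial.aeval_C, map_pow, hxy, sub_self]
    obtain ⟨b, rfl⟩ := mem_range_of_good hcl y halgy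
    have h4 : b ^ p - b = a ^ (p + 1) := by
      apply (algebraMap K (FractionRing A)).injective
      rw [map_sub, map_pow, map_pow]
      exact hxy
    rw [h2 a b h4, map_zero]

end Pool.Agent.Q284.NP
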