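import Mathlib

/-!
# The curve `y^p - y = x^(p+1)` has a point with `x = t` over `K((t))`
-/

set_option autoImplicit false

namespace Pool.Agent.Q284.NP

open PowerSeries

/-- the partial sums -/
noncomputable def psum (p : ℕ) (K : Type) [Field K] (N : ℕ) : K⟦X⟧ :=
  - ∑ j ∈ Finset.range N, (X : K⟦X⟧) ^ ((p + 1) * p ^ j)

theorem psum_as (p : ℕ) [Fact p.Prime] (K : Type) [Field K] [CharP K p] (N : ℕ) :
    psum p K N ^ p - psum p K N = X ^ (p + 1) - X ^ ((p + 1) * p ^ N) := by
  have : CharP K⟦X⟧ p := charP_of_injective_algebraMap (algebraMap K K⟦X⟧).injective p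
  induction N with
  | zero => simp [psum, zero_pow (Fact.out : p.Prime).ne_zero]
  | succ N ih =>
    have h1 : psum p K (N + 1) = psum p K N - X ^ ((p + 1) * p ^ N) := by
      simp only [psum]
      rw [Finset.sum_range_succ]
      ring
    rw [h1, sub_pow_char, ← pow_mul, mul_assoc, ← pow_succ]
    linear_combination ih

/-- the point -/
theorem exists_series (p : ℕ) [Fact p.Prime] (K : Type) [Field K] [CharP K p] :
    ∃ y : K⟦X⟧, y ^ p - y = X ^ (p + 1) := by
  classical
  have hp1 : 1 < p := (Fact.out : p.Prime).one_lt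
  have : CharP K⟦X⟧ p := charP_of_injective_algebraMap (algebraMap K K⟦X⟧).injective p
  let y : K⟦X⟧ := PowerSeries.mk fun n => if ∃ j, n = (p + 1) * p ^ j then -1 else 0
  refine ⟨y, ?_⟩
  have hmono : ∀ i j : ℕ, (p + 1) * p ^ i < (p + 1) * p ^ j → i < j := by
    intro i j h
    by_contra hij
    push Not at hij
    exact absurd h (not_lt.2 (Nat.mul_le_mul_left _ (Nat.pow_le_pow_right (by omega) hij)))
  have hinj : ∀ i j : ℕ, (p + 1) * p ^ i = (p + 1) * p ^ j → i = j := by
    intro i j h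
    exact Nat.pow_right_injective hp1 (Nat.eq_of_mul_eq_mul_left (Nat.succ_pos p) h)
  have hdiv : ∀ N, X ^ ((p + 1) * p ^ N) ∣ y - psum p K N := by
    intro N
    rw [PowerSeries.X_pow_dvd_iff]
    intro m hm
    rw [map_sub, sub_eq_zero]
    simp only [y, psum, PowerSeries.coeff_mk, map_neg, map_sum, PowerSeries.coeff_X_pow]
    by_cases h : ∃ j, m = (p + 1) * p ^ j
    · rw [if_pos h]
      obtain ⟨j, rfl⟩ := h
      rw [Finset.sum_eq_single j]
      · rw [if_pos rfl]
      · intro i _ hij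
        rw [if_neg]
        intro h
        exact hij (hinj _ _ h).symm
      · intro hj
        exact absurd (Finset.mem_range.2 (hmono _ _ hm)) hj
    · rw [if_neg h, Finset.sum_eq_zero, neg_zero]
      intro i _
      rw [if_neg]
      intro h'
      exact h ⟨i, h'⟩
  have hall : ∀ N, X ^ ((p + 1) * p ^ N) ∣ y ^ p - y - X ^ (p + 1) := by
    intro N
    obtain ⟨r, hr⟩ := hdiv N
    have h1 : y = psum p K N + X ^ ((p + 1) * p ^ N) * r := by rw [← hr]; ring
    have h2 : y ^ p - y - X ^ (p + 1) = (X ^ ((p + 1) * p ^ N) * r) ^ p - X ^ ((p + 1) * p ^ N) * r - X ^ ((p + 1) * p ^ N) := by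
      rw [h1, add_pow_char]
      linear_combination psum_as p K N
    rw [h2]
    refine dvd_sub (dvd_sub ?_ (dvd_mul_right _ _)) dvd_rfl
    exact dvd_pow (dvd_mul_right _ _) (by omega)
  rw [← sub_eq_zero]
  ext n
  rw [map_zero]
  refine PowerSeries.X_pow_dvd_iff.1 (hall n) n ?_
  calc n < p ^ n := Nat.lt_pow_self hp1
    _ ≤ (p + 1) * p ^ n := Nat.le_mul_of_pos_left _ (Nat.succ_pos p)

/-- a point over the field of Laurent series -/
theorem exists_laurent (p : ℕ) [Fact p.Prime] (K : Type) [Field K] [CharP K p] :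
    ∃ x y : LaurentSeries K, x ≠ 0 ∧ y ^ p - y = x ^ (p + 1) := by
  obtain ⟨y, hy⟩ := exists_series p K
  refine ⟨HahnSeries.ofPowerSeries ℤ K X, HahnSeries.ofPowerSeries ℤ K y, ?_, ?_⟩
  · rw [Ne, map_eq_zero_iff _ HahnSeries.ofPowerSeries_injective]
    exact X_ne_zero
  · rw [← map_pow, ← map_sub, hy, map_pow]

end Pool.Agent.Q284.NP
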