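import Pool.Agent.Q284.NP.Base

/-!
# Artin-Schreier classes of polynomials, and an absolutely irreducible curve without points
-/

set_option autoImplicit false

namespace Pool.Agent.Q284.NP

open Polynomial

/-- `g^(p^n) - g` is of the form `h^p - h` -/
theorem as_pow (p : ℕ) [Fact p.Prime] (R : Type) [CommRing R] [CharP R p] (g : R) (n : ℕ) :
    ∃ h : R, g ^ p ^ n - g = h ^ p - h := by
  induction n with
  | zero => exact ⟨0, by rw [pow_zero, pow_one, sub_self, zero_pow (Fact.out : p.Prime).ne_zero, sub_zero]⟩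
  | succ n ih =>
    obtain ⟨h, hh⟩ := ih
    refine ⟨h + g ^ p ^ n, ?_⟩
    rw [add_pow_char, ← pow_mul, ← pow_succ]
    linear_combination hh

/-- Artin-Schreier classes in extensions of the perfect closure of `F_p(t)` in which it is algebraically closed -/
theorem as_descent (p : ℕ) [Fact p.Prime] [CharP (RatFunc (ZMod p)) p] (K : Type) [Field K]
    (c : PerfectClosure (RatFunc (ZMod p)) p →+* K)
    (h : ∀ q : Polynomial (PerfectClosure (RatFunc (ZMod p)) p), Irreducible q → q.degree ≠ 1 → ∀ x : K, q.eval₂ c x ≠ 0)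
    (g : (ZMod p)[X]) (z : K)
    (hz : z ^ p - z = (c.comp ((PerfectClosure.of (RatFunc (ZMod p)) p).comp (algebraMap (ZMod p)[X] (RatFunc (ZMod p))))) g) :
    ∃ q : (ZMod p)[X], q ^ p - q = g := by
  let algK : Algebra (PerfectClosure (RatFunc (ZMod p)) p) K := c.toAlgebra
  have hp1 : 1 < p := (Fact.out : p.Prime).one_lt
  have hmon : ∀ (R : Type) [CommRing R] [Nontrivial R] (a : R), Monic (X ^ p - X - C a : R[X]) := by
    intro R _ _ a
    rw [sub_sub]
    apply monic_X_pow_sub
    refine lt_of_le_of_lt (degree_add_le _ _) (max_lt ?_ ?_)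
    · rw [degree_X]
      exact_mod_cast hp1
    · refine lt_of_le_of_lt degree_C_le ?_
      exact_mod_cast lt_trans Nat.zero_lt_one hp1
  have hzalg : IsAlgebraic (PerfectClosure (RatFunc (ZMod p)) p) z := by
    refine ⟨X ^ p - X - C (PerfectClosure.of (RatFunc (ZMod p)) p (algebraMap (ZMod p)[X] (RatFunc (ZMod p)) g)),
      (hmon _ _).ne_zero, ?_⟩
    rw [map_sub, map_sub, map_pow, aeval_X, aeval_C, hz]
    exact sub_self _
  obtain ⟨s, hs⟩ := mem_range_of_good (k := PerfectClosure (RatFunc (ZMod p)) p) (L := K) h z hzalg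
  have h1 : s ^ p - s = PerfectClosure.of (RatFunc (ZMod p)) p (algebraMap (ZMod p)[X] (RatFunc (ZMod p)) g) := by
    apply c.injective
    rw [map_sub, map_pow]
    have h2 : c s = z := hs
    rw [h2, hz]
    rfl
  obtain ⟨n, b, hb⟩ := pc_pow p (RatFunc (ZMod p)) s
  have h2 : b ^ p - b = (algebraMap (ZMod p)[X] (RatFunc (ZMod p)) g) ^ p ^ n := by
    apply (PerfectClosure.of (RatFunc (ZMod p)) p).injective
    rw [map_sub, map_pow, map_pow, ← h1, sub_pow_char_pow, ← pow_mul, mul_comm p, pow_mul, hb]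
  obtain ⟨w, hw⟩ := as_pow p (RatFunc (ZMod p)) (algebraMap (ZMod p)[X] (RatFunc (ZMod p)) g) n
  have h3 : (b - w) ^ p - (b - w) = algebraMap (ZMod p)[X] (RatFunc (ZMod p)) g := by
    rw [sub_pow_char]
    linear_combination h2 + hw
  have hint : IsIntegral (ZMod p)[X] (b - w) := by
    refine ⟨X ^ p - X - C g, hmon _ _, ?_⟩
    rw [eval₂_sub, eval₂_sub, eval₂_pow, eval₂_X, eval₂_C, h3, sub_self]
  obtain ⟨q, hq⟩ := IsIntegrallyClosed.isIntegral_iff.1 hint
  refine ⟨q, ?_⟩
  apply IsFractionRing.injective (ZMod p)[X] (RatFunc (ZMod p))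
  rw [map_sub, map_pow, hq, h3]

/-- the curve is absolutely irreducible -/
theorem curve_irreducible (p : ℕ) [Fact p.Prime] (F : Type) [Field F] : Irreducible (X ^ (p + 1) - C (X ^ p - X) : F[X][X]) := by
  have hp1 : 1 < p := (Fact.out : p.Prime).one_lt
  have hmonic : Monic (X ^ (p + 1) - C (X ^ p - X) : F[X][X]) := monic_X_pow_sub_C _ (Nat.succ_ne_zero p)
  have hnd : (X ^ (p + 1) - C (X ^ p - X) : F[X][X]).natDegree = p + 1 := natDegree_X_pow_sub_C
  have hprime : (Ideal.span {(X : F[X])}).IsPrime := (Ideal.span_singleton_prime X_ne_zero).2 prime_X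
  refine irreducible_of_eisenstein_criterion hprime ?_ ?_ ?_ ?_ hmonic.isPrimitive
  · rw [hmonic.leadingCoeff, ← Ideal.eq_top_iff_one]
    exact hprime.ne_top
  · intro n hn
    have hn' : n < p + 1 := by
      have h1 := coe_lt_degree.1 hn
      rwa [hnd] at h1
    rw [Ideal.mem_span_singleton, coeff_sub, coeff_X_pow, if_neg hn'.ne, coeff_C, zero_sub, dvd_neg]
    split_ifs
    · exact dvd_sub (dvd_pow_self X (by omega)) dvd_rfl
    · exact dvd_zero _
  · rw [degree_eq_natDegree hmonic.ne_zero, hnd]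
    exact_mod_cast Nat.succ_pos p
  · rw [coeff_sub, coeff_X_pow, if_neg (Nat.succ_ne_zero p).symm, coeff_C_zero, zero_sub, Ideal.span_singleton_pow,
      Ideal.mem_span_singleton, dvd_neg]
    intro h
    have h1 : (X ^ p - X : F[X]).coeff 1 = 0 := X_pow_dvd_iff.1 h 1 (by norm_num)
    rw [coeff_sub, coeff_X_pow, if_neg hp1.ne, coeff_X_one, zero_sub, neg_eq_zero] at h1
    exact one_ne_zero h1

end Pool.Agent.Q284.NP
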