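import Pool.Agent.Q284.NP.Stm

/-!
# The local theorem
-/

set_option autoImplicit false

namespace Pool.Agent.Q284.NP

section
variable (p : ℕ) [Fact p.Prime] (A L : Type) [CommRing A] [IsDomain A] [Field L] [Algebra A L] [IsFractionRing A L]

theorem ppos : p = (p - 1) + 1 := (Nat.succ_pred_eq_of_pos (Fact.out : p.Prime).pos).symm

/-- the localization as a subring of the fraction field -/
def locRing (P : Ideal A) (hP : P.IsPrime) : Subring L where
  carrier := {w | InLoc A L P w}
  mul_mem' := by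
    rintro w w' ⟨a, s, hs, h⟩ ⟨a', s', hs', h'⟩
    refine ⟨a * a', s * s', fun hm => (hP.mem_or_mem hm).elim hs hs', ?_⟩
    rw [map_mul, map_mul, ← h, ← h']
    ring
  one_mem' := ⟨1, 1, fun h => hP.ne_top ((Ideal.eq_top_iff_one P).2 h), by simp⟩
  add_mem' := by
    rintro w w' ⟨a, s, hs, h⟩ ⟨a', s', hs', h'⟩
    refine ⟨a * s' + s * a', s * s', fun hm => (hP.mem_or_mem hm).elim hs hs', ?_⟩
    rw [map_mul, map_add, map_mul, map_mul, ← h, ← h']
    ring
  zero_mem' := ⟨0, 1, fun h => hP.ne_top ((Ideal.eq_top_iff_one P).2 h), by simp⟩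
  neg_mem' := by
    rintro w ⟨a, s, hs, h⟩
    refine ⟨-a, s, hs, ?_⟩
    rw [map_neg, ← h]
    ring

variable {n : ℕ} (e : Fin (n + 1) → A) (hspan : ∀ a : A, ∃ c : Fin (n + 1) → A, a = ∑ i, c i ^ p * e i)
include hspan

theorem loc_span (P : Ideal A) (w : L) (hw : InLoc A L P w) :
    (∃ s : A, s ∉ P ∧ s = 0) ∨ ∃ c : Fin (n + 1) → L, (∀ i, InLoc A L P (c i)) ∧ w = ∑ i, c i ^ p * algebraMap A L (e i) := by
  obtain ⟨a, s, hs, h⟩ := hw
  by_cases hs0 : s = 0
  · exact Or.inl ⟨s, hs, hs0⟩
  right
  obtain ⟨c, hc⟩ := hspan (a * s ^ (p - 1))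
  have hs1 : algebraMap A L s ≠ 0 := by
    rw [Ne, IsFractionRing.to_map_eq_zero_iff]
    exact hs0
  refine ⟨fun i => algebraMap A L (c i) / algebraMap A L s, fun i => ⟨c i, s, hs, mul_div_cancel₀ _ hs1⟩, ?_⟩
  have h1 : algebraMap A L s ^ p * w = ∑ i, algebraMap A L (c i) ^ p * algebraMap A L (e i) := by
    have h2 := congrArg (algebraMap A L) hc
    rw [map_mul, map_pow, map_sum] at h2
    simp only [map_mul, map_pow] at h2
    rw [← h2, ← h]
    have h4 : algebraMap A L s ^ p = algebraMap A L s ^ (p - 1) * algebraMap A L s := by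
      rw [← pow_succ, ← ppos p]
    rw [h4]
    ring
  have h3 : w = (∑ i, algebraMap A L (c i) ^ p * algebraMap A L (e i)) / algebraMap A L s ^ p := by
    rw [← h1, mul_comm, mul_div_assoc, div_self (pow_ne_zero _ hs1), mul_one]
  rw [h3, Finset.sum_div]
  refine Finset.sum_congr rfl fun i _ => ?_
  rw [div_pow]
  ring

end

theorem pur (h1 : S_NRM) (h2 : S_DVR) (h3 : S_VAL) : S_PUR := by
  classical
  intro p _ A L _ _ _ _ _ _ _ _ hPB
  have hI : IsIntegrallyClosed A := h1 p A hPB
  obtain ⟨n, e, he0, hspan, hind⟩ := hPB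
  have hinj : Function.Injective (algebraMap A L) := IsFractionRing.injective A L
  have : CharP L p := charP_of_injective_algebraMap hinj p
  have hpp : p ≠ 0 := (Fact.out : p.Prime).ne_zero
  -- independence in the fraction field
  have hindL : ∀ c : Fin (n + 1) → L, ∑ i, c i ^ p * algebraMap A L (e i) = 0 → ∀ i, c i = 0 := by
    intro c hc i
    obtain ⟨b, hb⟩ := IsLocalization.exist_integer_multiples_of_finset (nonZeroDivisors A) (Finset.univ.image c)
    have hb' : ∀ i, ∃ a : A, algebraMap A L a = algebraMap A L b * c i := by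
      intro i
      obtain ⟨a, ha⟩ := hb (c i) (Finset.mem_image_of_mem c (Finset.mem_univ i))
      exact ⟨a, by rw [ha, Algebra.smul_def]⟩
    choose a ha using hb'
    have hb0 : algebraMap A L b ≠ 0 := by
      rw [Ne, IsFractionRing.to_map_eq_zero_iff]
      exact nonZeroDivisors.ne_zero b.2
    have h4 : ∑ i, a i ^ p * e i = 0 := by
      apply hinj
      rw [map_zero, map_sum]
      have h5 : ∀ i, algebraMap A L (a i ^ p * e i) = algebraMap A L b ^ p * (c i ^ p * algebraMap A L (e i)) := by
        intro i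
        rw [map_mul, map_pow, ha, mul_pow]
        ring
      simp only [h5]
      rw [← Finset.mul_sum, hc, mul_zero]
    have h6 := hind a h4 i
    have h7 := ha i
    rw [h6, map_zero] at h7
    rcases mul_eq_zero.1 h7.symm with h8 | h8
    · exact absurd h8 hb0
    · exact h8
  have huniq : ∀ c d : Fin (n + 1) → L, ∑ i, c i ^ p * algebraMap A L (e i) = ∑ i, d i ^ p * algebraMap A L (e i) →
      ∀ i, c i = d i := by
    intro c d hcd i
    have h4 := hindL (fun i => c i - d i) (by
      simp only [sub_pow_char, sub_mul]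
      rw [Finset.sum_sub_distrib, hcd, sub_self]) i
    exact sub_eq_zero.1 h4
  have hsingle : ∀ w : L, ∑ i, (Pi.single (M := fun _ : Fin (n + 1) => L) 0 w i) ^ p * algebraMap A L (e i) = w ^ p := by
    intro w
    rw [Finset.sum_eq_single 0]
    · rw [Pi.single_eq_same, he0, map_one, mul_one]
    · intro i _ hi
      rw [Pi.single_eq_of_ne hi, zero_pow hpp, zero_mul]
    · intro h
      exact absurd (Finset.mem_univ _) h
  have hspanL : ∀ z : L, ∃ c : Fin (n + 1) → L, z = ∑ i, c i ^ p * algebraMap A L (e i) := by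
    intro z
    obtain ⟨a, s, hs, rfl⟩ := IsFractionRing.div_surjective (A := A) z
    have hs1 : algebraMap A L s ≠ 0 := by
      rw [Ne, IsFractionRing.to_map_eq_zero_iff]
      exact nonZeroDivisors.ne_zero hs
    rcases loc_span p A L e hspan ⊥ (algebraMap A L a / algebraMap A L s)
        ⟨a, s, fun h => nonZeroDivisors.ne_zero hs h, mul_div_cancel₀ _ hs1⟩ with h4 | ⟨c, -, hc⟩
    · obtain ⟨t, ht, ht0⟩ := h4
      exact absurd (by rw [ht0]; exact Submodule.zero_mem _) ht
    · exact ⟨c, hc⟩
  refine ⟨?_, ?_⟩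
  · rintro w ⟨a, ha⟩
    obtain ⟨c, hc⟩ := hspan a
    have h4 := congrArg (algebraMap A L) hc
    rw [map_sum, ha] at h4
    simp only [map_mul, map_pow] at h4
    have h5 := huniq (Pi.single (M := fun _ : Fin (n + 1) => L) 0 w) (fun i => algebraMap A L (c i)) (by rw [hsingle, h4]) 0
    rw [Pi.single_eq_same] at h5
    exact ⟨c 0, h5.symm⟩
  · intro x y hxy
    obtain ⟨c, hc⟩ := hspanL x
    have hmain : ∀ i, i ≠ 0 → ∃ a : A, algebraMap A L a = c i := by
      intro i hi
      apply h2 A L (c i)
      intro P hP hV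
      have hnot : ¬ ∃ s : A, s ∉ P ∧ s = 0 := by
        rintro ⟨s, hs, rfl⟩
        exact hs (Submodule.zero_mem _)
      rcases h3 p L (locRing A L P hP) hV x y hxy with h4 | ⟨hx0, h4⟩
      · rcases loc_span p A L e hspan P x h4 with h5 | ⟨d, hd, hdx⟩
        · exact absurd h5 hnot
        · rw [huniq c d (by rw [← hc, ← hdx]) i]
          exact hd i
      · have h6 : InLoc A L P (- (y / x ^ p)) := (locRing A L P hP).neg_mem h4
        rcases loc_span p A L e hspan P _ h6 with h5 | ⟨d, hd, hdx⟩
        · exact absurd h5 hnot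
        · have h7 : x = (y / x) ^ p + - (y / x ^ p) := by
            have hxp : x ^ p ≠ 0 := pow_ne_zero _ hx0
            rw [div_pow, ← sub_eq_add_neg, ← sub_div, hxy, pow_succ, mul_div_assoc, mul_comm, div_mul_cancel₀ _ hxp]
          have h8 := huniq c (fun i => Pi.single (M := fun _ : Fin (n + 1) => L) 0 (y / x) i + d i) (by
            simp only [add_pow_char, add_mul]
            rw [Finset.sum_add_distrib, hsingle, ← hc, ← hdx]
            exact h7) i
          rw [h8, Pi.single_eq_of_ne hi, zero_add]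
          exact hd i
    have hmain' : ∀ i : Fin n, ∃ a : A, algebraMap A L a = c i.succ := fun i => hmain _ (Fin.succ_ne_zero i)
    choose a ha using hmain'
    refine ⟨∑ i : Fin n, a i ^ p * e i.succ, c 0, ?_⟩
    rw [hc, Fin.sum_univ_succ, he0, map_one, mul_one, map_sum, add_comm]
    congr 1
    refine Finset.sum_congr rfl fun i _ => ?_
    rw [map_mul, map_pow, ha]

end Pool.Agent.Q284.NP
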