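import Pool.Agent.Q284.NP.Stm

/-!
# Local rings of smooth algebras over a perfect field are free over their `p`-th powers
-/

set_option autoImplicit false

namespace Pool.Agent.Q284.NP

open scoped TensorProduct

theorem smo (h1 : S_OMG) (h2 : S_FIN) (h3 : S_SPN) (h4 : S_IND) : S_SMO := by
  classical
  intro p _ K B A _ _ _ _ _ _ _ _ Q _ _ hK
  let algKA : Algebra K A := ((algebraMap B A).comp (algebraMap K B)).toAlgebra
  have hst : IsScalarTower K B A := IsScalarTower.of_algebraMap_eq fun _ => rfl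
  have hlocA : IsLocalRing A := IsLocalization.AtPrime.isLocalRing A Q
  have hcA : CharP A p := charP_of_injective_algebraMap (algebraMap K A).injective p
  have hft : Algebra.FiniteType K B := inferInstance
  have hnB : IsNoetherianRing B := Algebra.FiniteType.isNoetherianRing K B
  have hnA : IsNoetherianRing A := IsLocalization.isNoetherianRing Q.primeCompl A hnB
  obtain ⟨n, x, b, hb⟩ := h1 K B A Q
  obtain ⟨m, g, hg⟩ := h2 p K B A Q hK
  have hsp : Submodule.span A (Set.range fun i => KaehlerDifferential.D K A (x i)) = ⊤ := by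
    rw [← b.span_eq]
    congr 2
    funext i
    exact (hb i).symm
  have hspan := h3 p K A hK m g hg n x hsp
  have hind := h4 p K A n x b hb
  have hpos : 0 < p := (Fact.out : p.Prime).pos
  let z : Fin n → Fin p := fun _ => ⟨0, hpos⟩
  have hcard : 0 < Fintype.card (Fin n → Fin p) := Fintype.card_pos_iff.2 ⟨z⟩
  obtain ⟨N, hN⟩ : ∃ N, Fintype.card (Fin n → Fin p) = N + 1 := ⟨Fintype.card (Fin n → Fin p) - 1, by omega⟩
  let e0 : Fin (N + 1) ≃ (Fin n → Fin p) := (finCongr hN.symm).trans (Fintype.equivFin _).symm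
  let σ : Fin (N + 1) ≃ (Fin n → Fin p) := e0.trans (Equiv.swap (e0 0) z)
  have hσ : σ 0 = z := by simp [σ]
  refine ⟨N, fun i => ∏ j, x j ^ (σ i j : ℕ), ?_, ?_, ?_⟩
  · simp only [hσ]
    exact Finset.prod_eq_one fun j _ => pow_zero _
  · intro a
    obtain ⟨c, hc⟩ := hspan a
    refine ⟨fun i => c (σ i), ?_⟩
    rw [hc]
    exact (Equiv.sum_comp σ (fun α => c α ^ p * ∏ i, x i ^ (α i : ℕ))).symm
  · intro c hc i
    have h5 := hind (fun α => c (σ.symm α)) (by
      rw [← Equiv.sum_comp σ (fun α => c (σ.symm α) ^ p * ∏ i, x i ^ (α i : ℕ)), ← hc]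
      refine Finset.sum_congr rfl fun i _ => ?_
      rw [Equiv.symm_apply_apply]) (σ i)
    rwa [Equiv.symm_apply_apply] at h5

end Pool.Agent.Q284.NP
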