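import Mathlib

/-!
# Project NP, one more statement: Artin-Schreier characters
-/

set_option autoImplicit false

namespace Pool.Agent.Q284.NP

/-- JOB GAS. Proof (compare `not_fg` in `Pool/Agent/Q284/PAC/Gal.lean`, where quadratic characters are used, and `fixed_of_dense`
there, which you can import). Let `S` be finite with dense generated subgroup, `N = S.card + 1`. For `c : Fin N → ZMod p` let
`g_c = ∑ i, C (c i) * X^(p * i + 1)` and choose `z_c` in the separable closure with `z_c^p - z_c = φ g_c` (the polynomial
`T^p - T - φ g_c` is separable, its derivative is `-1`; `IsSepClosed.exists_root`). For an automorphism `σ` the element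
`σ z_c - z_c` is a root of `T^p - T`, so it is the image of an element of `ZMod p`
(`T^p - T = ∏ (T - a)`; or: at most `p` roots). There are `p^N > p^(S.card)` vectors `c`, so for some `c ≠ c'` the elements
`σ z_c - z_c` and `σ z_c' - z_c'` agree for all `σ ∈ S`; `z = z_c - z_c'` is fixed by `S`, so it is in `K` (`fixed_of_dense`), and
`z^p - z = φ (g_c - g_c')`. So `g_c - g_c' = q^p - q` for a polynomial `q`. The left side has degree `p i + 1` for the largest `i` with
`c i ≠ c' i`; the right side has degree `p * natDegree q` or is constant: contradiction. (`K` has characteristic `p` because of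
`φ`.) -/
def S_GAS : Prop :=
  ∀ (p : ℕ) [Fact p.Prime] (K : Type) [Field K] (φ : Polynomial (ZMod p) →+* K),
    (∀ (g : Polynomial (ZMod p)) (z : K), z ^ p - z = φ g → ∃ q : Polynomial (ZMod p), q ^ p - q = g) →
    ∀ S : Finset (SeparableClosure K ≃ₐ[K] SeparableClosure K),
      (Subgroup.closure (S : Set (SeparableClosure K ≃ₐ[K] SeparableClosure K))).topologicalClosure ≠ ⊤

end Pool.Agent.Q284.NP
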