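import Pool.Agent.Q284.NP.Scm
import Pool.Agent.Q284.NP.Base2
import Pool.Agent.Q284.NP.Pur
import Pool.Agent.Q284.NP.Smo
import Pool.Agent.Q284.NP.Stm2

/-!
# Assembly from the lemmas
-/

set_option autoImplicit false

namespace Pool.Agent.Q284.NP

open CategoryTheory AlgebraicGeometry Polynomial

/-- existentially closed good extensions: the common statement -/
theorem core (hpur : S_PUR) (hcec : S_CEC) (hstk : S_STK) (hsmo : S_SMO) (hglo : S_GLO) (hfld : S_FLD)
    (p : ℕ) [Fact p.Prime] (k : Type) [Field k] [CharP k p] (hk : ∀ a : k, ∃ b : k, b ^ p = a)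
    (h : ∀ x y : k, y ^ p - y = x ^ (p + 1) → x = 0) :
    ∃ (K : Type) (_ : Field K) (c : k →+* K), (∀ q : k[X], Irreducible q → q.degree ≠ 1 → ∀ x : K, q.eval₂ c x ≠ 0) ∧
      (∀ a : K, ∃ b : K, b ^ p = a) ∧
      (∀ (X : Scheme.{0}) (f : X ⟶ Spec (.of K)), Smooth f → IsProper f → GeometricallyIntegral f → H1Zero X →
        ∃ s : Spec (.of K) ⟶ X, s ≫ f = 𝟙 _) ∧ ∀ x y : K, y ^ p - y = x ^ (p + 1) → x = 0 := by
  obtain ⟨K, _, c, hc, hec⟩ := exists_closed (P := PP p k) (RingHom.id k) (good_id p k h)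
  rw [RingHom.comp_id] at hc hec
  have hcK : CharP K p := charP_of_injective_ringHom c.injective p
  have hK := perfect_of_closed p hk K c hc hec
  have hc' := (good_iff p c).1 hc
  refine ⟨K, inferInstance, c, hc'.1, hK, ?_, hc'.2⟩
  intro X f _ _ _ hX
  exact exists_section hpur hcec hstk hsmo hglo hfld p K hK c hc hec X f hX

theorem asm_main (hpur : S_PUR) (hcec : S_CEC) (hstk : S_STK) (hsmo : S_SMO) (hglo : S_GLO) (hfld : S_FLD)
    (p : ℕ) [Fact p.Prime] (k : Type) [Field k] [CharP k p] (hk : ∀ a : k, ∃ b : k, b ^ p = a)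
    (h : ∀ x y : k, y ^ p - y = x ^ (p + 1) → x = 0) :
    ∃ (K : Type) (_ : Field K) (_ : Algebra k K), (∀ x : K, IsAlgebraic k x → x ∈ Set.range (algebraMap k K)) ∧
      (∀ a : K, ∃ b : K, b ^ p = a) ∧
      (∀ (X : Scheme.{0}) (f : X ⟶ Spec (.of K)), Smooth f → IsProper f → GeometricallyIntegral f → H1Zero X →
        ∃ s : Spec (.of K) ⟶ X, s ≫ f = 𝟙 _) ∧ ∀ x y : K, y ^ p - y = x ^ (p + 1) → x = 0 := by
  obtain ⟨K, _, c, h1, h2, h3, h4⟩ := core hpur hcec hstk hsmo hglo hfld p k hk h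
  refine ⟨K, inferInstance, c.toAlgebra, ?_, h2, h3, h4⟩
  let _ : Algebra k K := c.toAlgebra
  intro x hx
  exact mem_range_of_good (k := k) (L := K) h1 x hx

theorem asm_fg (hpur : S_PUR) (hcec : S_CEC) (hstk : S_STK) (hsmo : S_SMO) (hglo : S_GLO) (hfld : S_FLD) (hrat : S_RAT)
    (hgas : S_GAS) (p : ℕ) [Fact p.Prime] :
    ∃ (K : Type) (_ : Field K), CharP K p ∧ (∀ a : K, ∃ b : K, b ^ p = a) ∧
      (∀ (X : Scheme.{0}) (f : X ⟶ Spec (.of K)), Smooth f → IsProper f → GeometricallyIntegral f → H1Zero X →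
        ∃ s : Spec (.of K) ⟶ X, s ≫ f = 𝟙 _) ∧
      (∀ S : Finset (SeparableClosure K ≃ₐ[K] SeparableClosure K),
        (Subgroup.closure (S : Set (SeparableClosure K ≃ₐ[K] SeparableClosure K))).topologicalClosure ≠ ⊤) ∧
      ∀ x y : K, y ^ p - y = x ^ (p + 1) → x = 0 := by
  have hcR : CharP (RatFunc (ZMod p)) p := charP_rat p
  have hperf : ∀ a : PerfectClosure (RatFunc (ZMod p)) p, ∃ b : PerfectClosure (RatFunc (ZMod p)) p, b ^ p = a := by
    intro a
    obtain ⟨z, hz⟩ := (PerfectRing.bijective_frobenius (R := PerfectClosure (RatFunc (ZMod p)) p) (p := p)).2 a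
    exact ⟨z, hz⟩
  obtain ⟨K, _, c, h1, h2, h3, h4⟩ := core hpur hcec hstk hsmo hglo hfld p (PerfectClosure (RatFunc (ZMod p)) p) hperf
    (fun x y hxy => perf_sol p (RatFunc (ZMod p)) (rat0 hrat p) x y hxy)
  have hcK : CharP K p := charP_of_injective_ringHom c.injective p
  refine ⟨K, inferInstance, hcK, h2, h3, ?_, h4⟩
  exact hgas p K (c.comp ((PerfectClosure.of (RatFunc (ZMod p)) p).comp (algebraMap (ZMod p)[X] (RatFunc (ZMod p)))))
    (fun g z hz => as_descent p K c h1 g z hz)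

end Pool.Agent.Q284.NP
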