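import Pool.Agent.Q284.NP.Perf

/-!
# The base field: the perfect closure of `F_p(t)`
-/

set_option autoImplicit false

namespace Pool.Agent.Q284.NP

open Polynomial

theorem rat0 (hrat : S_RAT) (p : ℕ) [Fact p.Prime] (x y : RatFunc (ZMod p)) (h : y ^ p - y = x ^ (p + 1)) : x = 0 := by
  obtain ⟨a, rfl⟩ := hrat p x y h
  have hp1 : 1 < p := (Fact.out : p.Prime).one_lt
  have hint : IsIntegral (ZMod p)[X] y := by
    refine ⟨X ^ p - X - C (C (a ^ (p + 1))), ?_, ?_⟩
    · rw [sub_sub]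
      apply monic_X_pow_sub
      refine lt_of_le_of_lt (degree_add_le _ _) (max_lt ?_ ?_)
      · rw [degree_X]
        exact_mod_cast hp1
      · refine lt_of_le_of_lt degree_C_le ?_
        exact_mod_cast lt_trans Nat.zero_lt_one hp1
    · rw [eval₂_sub, eval₂_sub, eval₂_pow, eval₂_X, eval₂_C, h, RatFunc.algebraMap_C, ← map_pow, sub_self]
  obtain ⟨q, rfl⟩ := IsIntegrallyClosed.isIntegral_iff.1 hint
  have h1 : q ^ p - q = C (a ^ (p + 1)) := by
    apply IsFractionRing.injective (ZMod p)[X] (RatFunc (ZMod p))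
    rw [map_sub, map_pow, h, RatFunc.algebraMap_C, map_pow]
  have h2 : q.natDegree = 0 := by
    by_contra hd
    have h3 : (q ^ p - q).natDegree = p * q.natDegree := by
      rw [natDegree_sub_eq_left_of_natDegree_lt, natDegree_pow]
      rw [natDegree_pow]
      exact lt_mul_of_one_lt_left (Nat.pos_of_ne_zero hd) hp1
    rw [h1, natDegree_C] at h3
    rcases Nat.mul_eq_zero.1 h3.symm with h4 | h4
    · omega
    · exact hd h4
  rw [eq_C_of_natDegree_eq_zero h2, ← map_pow, ZMod.pow_card, sub_self] at h1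
  have h3 : a ^ (p + 1) = 0 := by
    rw [← C_eq_zero]
    exact h1.symm
  rw [pow_eq_zero_iff (Nat.succ_ne_zero p)] at h3
  rw [h3, map_zero]

theorem isSquare_of_pow (p : ℕ) [Fact p.Prime] (hp : p ≠ 2) (n : ℕ) (g : (ZMod p)[X])
    (s : RatFunc (ZMod p)) (h : algebraMap (ZMod p)[X] (RatFunc (ZMod p)) g ^ p ^ n = s * s) : IsSquare g := by
  obtain ⟨m, hm⟩ : Odd (p ^ n) := ((Fact.out : p.Prime).odd_of_ne_two hp).pow
  by_cases hg : g = 0
  · exact ⟨0, by rw [hg, mul_zero]⟩
  have hg1 : algebraMap (ZMod p)[X] (RatFunc (ZMod p)) g ≠ 0 := by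
    rw [Ne, IsFractionRing.to_map_eq_zero_iff]
    exact hg
  have h1 : algebraMap (ZMod p)[X] (RatFunc (ZMod p)) g = (s / algebraMap (ZMod p)[X] (RatFunc (ZMod p)) g ^ m) ^ 2 := by
    rw [div_pow, pow_two s, ← h, ← pow_mul, mul_comm m 2, hm, pow_succ, mul_div_assoc, mul_comm, div_mul_cancel₀ _ (pow_ne_zero _ hg1)]
  have h2 : IsIntegral (ZMod p)[X] (s / algebraMap (ZMod p)[X] (RatFunc (ZMod p)) g ^ m) := by
    refine IsIntegral.of_pow (n := 2) (by norm_num) ?_
    rw [← h1]
    exact isIntegral_algebraMap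
  obtain ⟨q, hq⟩ := IsIntegrallyClosed.isIntegral_iff.1 h2
  refine ⟨q, ?_⟩
  apply IsFractionRing.injective (ZMod p)[X] (RatFunc (ZMod p))
  rw [map_mul, hq, ← pow_two, ← h1]

/-- the perfect closure of `F_p(t)` is good over itself -/
theorem good_id (p : ℕ) [Fact p.Prime] (k : Type) [Field k] (h : ∀ x y : k, y ^ p - y = x ^ (p + 1) → x = 0) :
    Good (PP p k) (RingHom.id k) := by
  rw [good_iff]
  exact ⟨fun q hq hd x hx => hd (degree_eq_one_of_irreducible_of_root hq hx), h⟩

theorem charP_rat (p : ℕ) [Fact p.Prime] : CharP (RatFunc (ZMod p)) p :=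
  charP_of_injective_algebraMap (IsFractionRing.injective (ZMod p)[X] (RatFunc (ZMod p))) p

/-- squares in extensions of the perfect closure of `F_p(t)` in which it is algebraically closed -/
theorem square_descent (p : ℕ) [Fact p.Prime] (hp : p ≠ 2) [CharP (RatFunc (ZMod p)) p] (K : Type) [Field K]
    (c : PerfectClosure (RatFunc (ZMod p)) p →+* K)
    (h : ∀ q : Polynomial (PerfectClosure (RatFunc (ZMod p)) p), Irreducible q → q.degree ≠ 1 → ∀ x : K, q.eval₂ c x ≠ 0)
    (g : (ZMod p)[X])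
    (hg : IsSquare ((c.comp ((PerfectClosure.of (RatFunc (ZMod p)) p).comp (algebraMap (ZMod p)[X] (RatFunc (ZMod p))))) g)) :
    IsSquare g := by
  obtain ⟨r, hr⟩ := hg
  let algK : Algebra (PerfectClosure (RatFunc (ZMod p)) p) K := c.toAlgebra
  have hralg : IsAlgebraic (PerfectClosure (RatFunc (ZMod p)) p) r := by
    refine ⟨X ^ 2 - C (PerfectClosure.of (RatFunc (ZMod p)) p (algebraMap (ZMod p)[X] (RatFunc (ZMod p)) g)), ?_, ?_⟩
    · exact X_pow_sub_C_ne_zero (by norm_num) _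
    · rw [map_sub, map_pow, aeval_X, aeval_C, pow_two, ← hr]
      exact sub_self _
  obtain ⟨s, hs⟩ := mem_range_of_good (k := PerfectClosure (RatFunc (ZMod p)) p) (L := K) h r hralg
  have h1 : PerfectClosure.of (RatFunc (ZMod p)) p (algebraMap (ZMod p)[X] (RatFunc (ZMod p)) g) = s * s := by
    apply c.injective
    rw [map_mul]
    have h2 : c s = r := hs
    rw [h2, ← hr]
    rfl
  obtain ⟨n, b, hb⟩ := pc_pow p (RatFunc (ZMod p)) s
  apply isSquare_of_pow p hp n g b
  apply (PerfectClosure.of (RatFunc (ZMod p)) p).injective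
  rw [map_pow, h1, mul_pow, hb, map_mul]

end Pool.Agent.Q284.NP
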