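import Pool.Agent.Q284.NP.Scm

/-!
# Global functions on proper geometrically integral schemes
-/

set_option autoImplicit false

namespace Pool.Agent.Q284.NP

open CategoryTheory Limits AlgebraicGeometry
open scoped TensorProduct

theorem glo : S_GLO := by
  intro K _ X f _ _ g
  have hXi : IsIntegral X := GeometricallyIntegral.isIntegral_of_subsingleton f
  obtain ⟨x, -⟩ := f.surjective (IsLocalRing.closedPoint K)
  obtain ⟨_, ⟨U, hU, rfl⟩, hxU, -⟩ := X.isBasis_affineOpens.exists_subset_of_mem_open (Set.mem_univ x) isOpen_univ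
  have hneU : Nonempty U := ⟨⟨x, hxU⟩⟩
  let R : CommRingCat.{0} := Γ(X, U)
  let j : Spec R ⟶ X := hU.fromSpec
  have hne : Nonempty (Spec R) := ⟨hU.primeIdealOf ⟨x, hxU⟩⟩
  obtain ⟨φ, hφ, hft, hdom⟩ := affine_data K X f R j hne
  have hφ2 : φ = (Scheme.ΓSpecIso (.of K)).inv ≫ f.appLE ⊤ U (by simp) := by
    apply Spec.map_injective
    rw [hφ, Spec.map_comp]
    have h1 := IsAffineOpen.SpecMap_appLE_fromSpec f (isAffineOpen_top (Spec (.of K))) hU (by simp)
    rw [IsAffineOpen.fromSpec_top, Scheme.isoSpec_Spec_inv] at h1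
    exact h1.symm
  let ι : K →+* Γ(X, ⊤) := f.appTop.hom.comp (Scheme.ΓSpecIso (.of K)).inv.hom
  let r : Γ(X, ⊤) →+* Γ(X, U) := (X.presheaf.map (homOfLE le_top).op).hom
  have hφ3 : φ.hom = r.comp ι := by
    rw [hφ2]
    rfl
  have hfin : ι.Finite := by
    refine RingHom.Finite.comp (finite_appTop_of_universallyClosed K f) ?_
    apply RingHom.Finite.of_surjective
    exact (ConcreteCategory.bijective_of_isIso (Scheme.ΓSpecIso (.of K)).inv).2
  let algι : Algebra K Γ(X, ⊤) := ι.toAlgebra
  have hint : IsIntegral K g := hfin.to_isIntegral g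
  by_cases hd : (minpoly K g).degree = 1
  · obtain ⟨c, hc⟩ := minpoly.mem_range_of_degree_eq_one K g hd
    exact ⟨c, hc⟩
  · exfalso
    let A : Type := R
    let algA : Algebra K A := φ.hom.toAlgebra
    have h5 : IsDomain (A ⊗[K] AlgebraicClosure K) := hdom
    have h6 : IsDomain A := PAC.isDomain_of_tensor K A
    refine PAC.noroot_frac K A (minpoly K g)
      (fun z hz => hd (Polynomial.degree_eq_one_of_irreducible_of_root (minpoly.irreducible hint) hz))
      (algebraMap A (FractionRing A) (r g)) ?_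
    have h7 : (algebraMap K A) = r.comp ι := hφ3
    have h8 : (minpoly K g).eval₂ ι g = 0 := minpoly.aeval K g
    rw [h7, ← RingHom.comp_assoc]
    have h9 := Polynomial.hom_eval₂ (minpoly K g) ι ((algebraMap A (FractionRing A)).comp r) g
    rw [h8, map_zero] at h9
    exact h9.symm

end Pool.Agent.Q284.NP
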