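import Pool.Agent.Q284.NP.Stm

/-!
# Stalks of smooth schemes over a perfect field
-/

set_option autoImplicit false

namespace Pool.Agent.Q284.NP

open CategoryTheory Limits AlgebraicGeometry

theorem stk : S_STK := by
  intro hsmo p _ K _ _ hK X f _ _ x
  obtain ⟨_, ⟨U, hU, rfl⟩, hxU, -⟩ := X.isBasis_affineOpens.exists_subset_of_mem_open (Set.mem_univ x) isOpen_univ
  have hneU : Nonempty U := ⟨⟨x, hxU⟩⟩
  let ψ : Γ(Spec (.of K), ⊤) ⟶ Γ(X, U) := f.appLE ⊤ U (by simp)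
  have hψ : ψ.hom.Smooth := f.smooth_appLE (isAffineOpen_top (Spec (.of K))) hU (by simp)
  let φ : K →+* Γ(X, U) := ψ.hom.comp (Scheme.ΓSpecIso (.of K)).inv.hom
  have hφ : φ.Smooth := by
    refine RingHom.Smooth.comp ?_ hψ
    exact RingHom.Smooth.of_bijective (ConcreteCategory.bijective_of_isIso (Scheme.ΓSpecIso (.of K)).inv)
  let algφ : Algebra K Γ(X, U) := φ.toAlgebra
  have hsm : Algebra.Smooth K Γ(X, U) := hφ
  let algs : Algebra Γ(X, U) (X.presheaf.stalk x) := TopCat.Presheaf.algebra_section_stalk X.presheaf (⟨x, hxU⟩ : U)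
  have hloc : IsLocalization.AtPrime (X.presheaf.stalk x) (hU.primeIdealOf ⟨x, hxU⟩).asIdeal := hU.isLocalization_stalk ⟨x, hxU⟩
  have hnB : IsNoetherianRing Γ(X, U) := Algebra.FiniteType.isNoetherianRing K Γ(X, U)
  refine ⟨hsmo p K Γ(X, U) (X.presheaf.stalk x) (hU.primeIdealOf ⟨x, hxU⟩).asIdeal hK,
    IsLocalization.isNoetherianRing (hU.primeIdealOf ⟨x, hxU⟩).asIdeal.primeCompl (X.presheaf.stalk x) hnB, ?_⟩
  exact charP_of_injective_ringHom ((algebraMap Γ(X, U) (X.presheaf.stalk x)).comp φ).injective p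

end Pool.Agent.Q284.NP
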