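import Pool.Agent.Q284.NP.Asm
import Pool.Agent.Q284.NP.Glo
import Pool.Agent.Q284.NP.Stk
import Pool.Agent.Q96.NP.Omg
import Pool.Agent.Q96.NP.Fin_
import Pool.Agent.Q96.NP.Ind
import Pool.Agent.Q150.NP.Fld
import Pool.Agent.Q150.NP.Rat
import Pool.Agent.Q154.NP.Val
import Pool.Agent.Q176.NP.Dvr
import Pool.Agent.Q176.NP.Nrm
import Pool.Agent.Q182.NP.Gas
import Pool.Agent.Q259.NP.SPN
import Pool.Agent.Q265.NP.CEC

/-!
# Fields with property (A) which are not PAC: the main statements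
-/

set_option autoImplicit false

namespace Pool.Agent.Q284.NP

open CategoryTheory AlgebraicGeometry Polynomial

theorem pur_all : S_PUR := pur Pool.Agent.Q176.NP.nrm Pool.Agent.Q176.NP.dvr Pool.Agent.Q154.NP.val

theorem smo_all : S_SMO := smo Pool.Agent.Q96.NP.omg Pool.Agent.Q96.NP.fin Pool.Agent.Q259.NP.spn Pool.Agent.Q96.NP.ind

theorem main (p : ℕ) [Fact p.Prime] (k : Type) [Field k] [CharP k p] (hk : ∀ a : k, ∃ b : k, b ^ p = a)
    (h : ∀ x y : k, y ^ p - y = x ^ (p + 1) → x = 0) :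
    ∃ (K : Type) (_ : Field K) (_ : Algebra k K), (∀ x : K, IsAlgebraic k x → x ∈ Set.range (algebraMap k K)) ∧
      (∀ a : K, ∃ b : K, b ^ p = a) ∧
      (∀ (X : Scheme.{0}) (f : X ⟶ Spec (.of K)), Smooth f → IsProper f → GeometricallyIntegral f → H1Zero X →
        ∃ s : Spec (.of K) ⟶ X, s ≫ f = 𝟙 _) ∧ ∀ x y : K, y ^ p - y = x ^ (p + 1) → x = 0 :=
  asm_main pur_all Pool.Agent.Q265.NP.cec stk smo_all glo Pool.Agent.Q150.NP.Fld.fld p k hk h

theorem main_fg (p : ℕ) [Fact p.Prime] :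
    ∃ (K : Type) (_ : Field K), CharP K p ∧ (∀ a : K, ∃ b : K, b ^ p = a) ∧
      (∀ (X : Scheme.{0}) (f : X ⟶ Spec (.of K)), Smooth f → IsProper f → GeometricallyIntegral f → H1Zero X →
        ∃ s : Spec (.of K) ⟶ X, s ≫ f = 𝟙 _) ∧
      (∀ S : Finset (SeparableClosure K ≃ₐ[K] SeparableClosure K),
        (Subgroup.closure (S : Set (SeparableClosure K ≃ₐ[K] SeparableClosure K))).topologicalClosure ≠ ⊤) ∧
      ∀ x y : K, y ^ p - y = x ^ (p + 1) → x = 0 :=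
  asm_fg pur_all Pool.Agent.Q265.NP.cec stk smo_all glo Pool.Agent.Q150.NP.Fld.fld Pool.Agent.Q150.NP.Rat.rat
    Pool.Agent.Q182.NP.gas p

end Pool.Agent.Q284.NP
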