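import Pool.Agent.Q284.NP.Aff

/-!
# Perfect closures
-/

set_option autoImplicit false

namespace Pool.Agent.Q284.NP

theorem pc_pow (p : ℕ) [Fact p.Prime] (K : Type) [Field K] [CharP K p] (z : PerfectClosure K p) :
    ∃ (n : ℕ) (a : K), z ^ p ^ n = PerfectClosure.of K p a := by
  obtain ⟨⟨n, a⟩, rfl⟩ := PerfectClosure.mk_surjective K p z
  refine ⟨n, a, ?_⟩
  rw [← PerfectClosure.iterate_frobenius_mk, iterate_frobenius]

theorem pc_pow₂ (p : ℕ) [Fact p.Prime] (K : Type) [Field K] [CharP K p] (z w : PerfectClosure K p) :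
    ∃ (n : ℕ) (a b : K), z ^ p ^ n = PerfectClosure.of K p a ∧ w ^ p ^ n = PerfectClosure.of K p b := by
  obtain ⟨n, a, ha⟩ := pc_pow p K z
  obtain ⟨m, b, hb⟩ := pc_pow p K w
  refine ⟨n + m, a ^ p ^ m, b ^ p ^ n, ?_, ?_⟩
  · rw [pow_add, pow_mul, ha, map_pow]
  · rw [add_comm, pow_add, pow_mul, hb, map_pow]

/-- no new points on the curve in the perfect closure -/
theorem perf_sol (p : ℕ) [Fact p.Prime] (K : Type) [Field K] [CharP K p]
    (h : ∀ x y : K, y ^ p - y = x ^ (p + 1) → x = 0) (x y : PerfectClosure K p) (hxy : y ^ p - y = x ^ (p + 1)) : x = 0 := by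
  obtain ⟨n, a, b, ha, hb⟩ := pc_pow₂ p K x y
  have h1 : (y ^ p - y) ^ p ^ n = (x ^ (p + 1)) ^ p ^ n := by rw [hxy]
  rw [sub_pow_char_pow, ← pow_mul, mul_comm p, pow_mul, hb, ← pow_mul, mul_comm (p + 1), pow_mul, ha, ← map_pow, ← map_pow,
    ← map_sub] at h1
  have h2 := h a b ((PerfectClosure.of K p).injective h1)
  rw [h2, map_zero] at ha
  exact pow_eq_zero_iff (pow_ne_zero _ (Fact.out : p.Prime).ne_zero) |>.1 ha

theorem pow_inj (p : ℕ) [Fact p.Prime] (K : Type) [Field K] [CharP K p] (n : ℕ) (a b : K) (h : a ^ p ^ n = b ^ p ^ n) : a = b := by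
  have h1 : (a - b) ^ p ^ n = 0 := by rw [sub_pow_char_pow, h, sub_self]
  exact sub_eq_zero.1 (pow_eq_zero_iff (pow_ne_zero _ (Fact.out : p.Prime).ne_zero) |>.1 h1)

theorem root_pow (p : ℕ) (k : Type) [Field k] (hk : ∀ a : k, ∃ b : k, b ^ p = a) (n : ℕ) (a : k) : ∃ b : k, b ^ p ^ n = a := by
  induction n generalizing a with
  | zero => exact ⟨a, by rw [pow_zero, pow_one]⟩
  | succ n ih =>
    obtain ⟨b, hb⟩ := ih a
    obtain ⟨d, hd⟩ := hk b
    exact ⟨d, by rw [pow_succ, mul_comm, pow_mul, hd, hb]⟩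

/-- the perfect closure of a good extension of a perfect field is good -/
theorem perf_good (p : ℕ) [Fact p.Prime] {k : Type} [Field k] (hk : ∀ a : k, ∃ b : k, b ^ p = a) (K : Type) [Field K] [CharP K p]
    (c : k →+* K) (h : Good (PP p k) c) : Good (PP p k) ((PerfectClosure.of K p).comp c) := by
  rw [good_iff] at h ⊢
  obtain ⟨h1, h2⟩ := h
  refine ⟨?_, fun x y hxy => perf_sol p K h2 x y hxy⟩
  intro q hq hd x hx
  obtain ⟨n, b, hb⟩ := pc_pow p K x
  let algk : Algebra k K := c.toAlgebra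
  let algP : Algebra k (PerfectClosure K p) := ((PerfectClosure.of K p).comp c).toAlgebra
  let o : K →ₐ[k] PerfectClosure K p := { PerfectClosure.of K p with commutes' := fun _ => rfl }
  have hx1 : IsAlgebraic k x := ⟨q, hq.ne_zero, hx⟩
  have hx2 : IsAlgebraic k (x ^ p ^ n) := hx1.pow _
  have hb1 : IsAlgebraic k b := by
    rw [hb] at hx2
    exact (isAlgebraic_algHom_iff o (RingHom.injective (PerfectClosure.of K p))).1 hx2
  obtain ⟨a, ha⟩ := mem_range_of_good (k := k) (L := K) h1 b hb1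
  obtain ⟨d, hd1⟩ := root_pow p k hk n a
  have h3 : x = PerfectClosure.of K p (c d) := by
    apply pow_inj p (PerfectClosure K p) n
    rw [hb, ← map_pow, ← map_pow, hd1, ← ha]
    rfl
  rw [h3] at hx
  have h4 : q.eval d = 0 := by
    have h5 : q.eval₂ ((PerfectClosure.of K p).comp c) (((PerfectClosure.of K p).comp c) d) = 0 := hx
    rw [Polynomial.eval₂_at_apply] at h5
    exact (map_eq_zero _).1 h5
  exact hd (Polynomial.degree_eq_one_of_irreducible_of_root hq h4)

/-- an existentially closed good extension of a perfect field is perfect -/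
theorem perfect_of_closed (p : ℕ) [Fact p.Prime] {k : Type} [Field k] (hk : ∀ a : k, ∃ b : k, b ^ p = a) (K : Type) [Field K]
    [CharP K p] (c : k →+* K) (h : Good (PP p k) c)
    (hec : ∀ (M : Type) (_ : Field M) (g : K →+* M), Good (PP p k) (g.comp c) → ∀ s : Sys K, Sol g s → Sol (RingHom.id K) s)
    (a : K) : ∃ b : K, b ^ p = a := by
  have h1 := hec (PerfectClosure K p) inferInstance (PerfectClosure.of K p) (perf_good p hk K c h)
    (sysQ (Polynomial.X ^ p - Polynomial.C a)) (by
      rw [sol_sysQ]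
      obtain ⟨z, hz⟩ := (PerfectRing.bijective_frobenius (R := PerfectClosure K p) (p := p)).2 (PerfectClosure.of K p a)
      refine ⟨z, ?_⟩
      rw [Polynomial.eval₂_sub, Polynomial.eval₂_pow, Polynomial.eval₂_X, Polynomial.eval₂_C]
      exact sub_eq_zero.2 hz)
  rw [sol_sysQ] at h1
  obtain ⟨b, hb⟩ := h1
  rw [Polynomial.eval₂_sub, Polynomial.eval₂_pow, Polynomial.eval₂_X, Polynomial.eval₂_C] at hb
  exact ⟨b, sub_eq_zero.1 hb⟩

/-- points over the affine varieties whose function field has no new points on the curve -/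
theorem exists_algHom (hfld : S_FLD) (p : ℕ) [Fact p.Prime] {k : Type} [Field k] (K : Type) [Field K] [CharP K p] (c : k →+* K)
    (h : Good (PP p k) c)
    (hec : ∀ (M : Type) (_ : Field M) (g : K →+* M), Good (PP p k) (g.comp c) → ∀ s : Sys K, Sol g s → Sol (RingHom.id K) s)
    (A : Type) [CommRing A] [Algebra K A] [Algebra.FiniteType K A] [IsDomain A] [IsDomain (TensorProduct K A (AlgebraicClosure K))]
    (hp : ∀ x y : FractionRing A, y ^ p - y = x ^ (p + 1) → ∃ w, x = w ^ p) : Nonempty (A →ₐ[K] K) := by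
  classical
  let g : K →+* FractionRing A := (algebraMap A (FractionRing A)).comp (algebraMap K A)
  have hg : Good (PP p k) (g.comp c) := good_frac hfld p K c h A hp
  obtain ⟨n, π, hπ⟩ := Algebra.FiniteType.iff_quotient_mvPolynomial''.1 (inferInstance : Algebra.FiniteType K A)
  obtain ⟨S, hS⟩ := (isNoetherianRing_iff_ideal_fg (MvPolynomial (Fin n) K)).1 inferInstance (RingHom.ker π.toRingHom)
  have hsol : Sol g (⟨n, S⟩ : Sys K) := by
    refine ⟨fun i => algebraMap A (FractionRing A) (π (MvPolynomial.X i)), fun p hp => ?_⟩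
    have h1 : π p = 0 := by
      have h2 : p ∈ RingHom.ker π.toRingHom := by
        rw [← hS]
        exact Ideal.subset_span hp
      exact h2
    have h3 : p.eval₂ (algebraMap K A) (fun i => π (MvPolynomial.X i)) = π p := by
      have h4 := MvPolynomial.aeval_unique π
      conv_rhs => rw [h4, MvPolynomial.aeval_def]
      rfl
    have h5 := MvPolynomial.eval₂_comp_left (algebraMap A (FractionRing A)) (algebraMap K A)
      (fun i => π (MvPolynomial.X i)) p
    rw [h3, h1, map_zero] at h5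
    exact h5.symm
  obtain ⟨x, hx⟩ := hec _ _ g hg _ hsol
  let ψ : MvPolynomial (Fin n) K →ₐ[K] K := MvPolynomial.aeval x
  have hψ : ∀ p, π p = 0 → ψ p = 0 := by
    intro p hp
    have h1 : p ∈ Ideal.span (S : Set (MvPolynomial (Fin n) K)) := by
      have h2 : p ∈ RingHom.ker π.toRingHom := hp
      rw [← hS] at h2
      exact h2
    have h2 : Ideal.span (S : Set (MvPolynomial (Fin n) K)) ≤ RingHom.ker ψ.toRingHom := by
      refine Ideal.span_le.2 fun q hq => ?_
      exact hx q hq
    exact h2 h1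
  exact ⟨AlgHom.liftOfSurjective π hπ ψ hψ⟩

end Pool.Agent.Q284.NP
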