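import Pool.Agent.Q284.NP.Perf

/-!
# Schemes
-/

set_option autoImplicit false

namespace Pool.Agent.Q284.NP

open CategoryTheory Limits AlgebraicGeometry
open scoped TensorProduct

/-- a point of the curve over the function field of `X` has a `p`-th power as first coordinate -/
theorem pth_power (hpur : S_PUR) (hcec : S_CEC) (hstk : S_STK) (hsmo : S_SMO) (hglo : S_GLO)
    (p : ℕ) [Fact p.Prime] (K : Type) [Field K] [CharP K p] (hK : ∀ a : K, ∃ b : K, b ^ p = a)
    (X : Scheme.{0}) (f : X ⟶ Spec (.of K)) [Smooth f] [IsProper f] [GeometricallyIntegral f] [IsIntegral X] (hX : H1Zero X)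
    (x y : X.functionField) (hxy : y ^ p - y = x ^ (p + 1)) : ∃ w, x = w ^ p := by
  have hs := hstk hsmo p K hK X f
  have hF : CharP X.functionField p := (hs (genericPoint X)).2.2
  have hloc : ∀ z : X, (∀ w : X.functionField, (∃ a : X.presheaf.stalk z, algebraMap (X.presheaf.stalk z) X.functionField a = w ^ p) →
      ∃ a : X.presheaf.stalk z, algebraMap (X.presheaf.stalk z) X.functionField a = w) ∧
      ∀ x y : X.functionField, y ^ p - y = x ^ (p + 1) → ∃ (a : X.presheaf.stalk z) (w : X.functionField),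
        x = algebraMap (X.presheaf.stalk z) X.functionField a + w ^ p := by
    intro z
    obtain ⟨h1, h2, h3⟩ := hs z
    exact hpur p (X.presheaf.stalk z) X.functionField h1
  obtain ⟨g, w, hgw⟩ := hcec p X hF hX (fun z => (hloc z).1) x (fun z => (hloc z).2 x y hxy)
  obtain ⟨c, hc⟩ := hglo K X f g
  obtain ⟨d, hd⟩ := hK c
  let φ : K →+* X.functionField := (X.presheaf.germ ⊤ (genericPoint X) trivial).hom.comp
    (f.appTop.hom.comp (Scheme.ΓSpecIso (.of K)).inv.hom)
  refine ⟨φ d + w, ?_⟩
  rw [add_pow_char, ← map_pow, hd, hgw, ← hc]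
  rfl

/-- an affine open subscheme of a geometrically integral scheme -/
theorem affine_data (K : Type) [Field K] (X : Scheme.{0}) (f : X ⟶ Spec (.of K)) [GeometricallyIntegral f] [LocallyOfFiniteType f]
    (R : CommRingCat.{0}) (j : Spec R ⟶ X) [IsOpenImmersion j] (hne : Nonempty (Spec R)) :
    ∃ φ : CommRingCat.of K ⟶ R, Spec.map φ = j ≫ f ∧ RingHom.FiniteType φ.hom ∧
      (let _ : Algebra K R := φ.hom.toAlgebra; IsDomain (R ⊗[K] AlgebraicClosure K)) := by
  obtain ⟨φ, hφ⟩ := Spec.map_surjective (j ≫ f)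
  have hft : RingHom.FiniteType φ.hom := by
    have h1 : LocallyOfFiniteType (Spec.map φ) := by
      rw [hφ]
      infer_instance
    exact (HasRingHomProperty.Spec_iff (P := @LocallyOfFiniteType)).1 h1
  refine ⟨φ, hφ, hft, ?_⟩
  let A : Type := R
  let algA : Algebra K A := φ.hom.toAlgebra
  have hφA : Spec.map (CommRingCat.ofHom (algebraMap K A)) = j ≫ f := hφ
  let g : Spec (.of (AlgebraicClosure K)) ⟶ Spec (.of K) := Spec.map (CommRingCat.ofHom (algebraMap K (AlgebraicClosure K)))
  have h1 : IsIntegral (pullback f g) :=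
    pullback_of_geometrically GeometricallyIntegral.geometrically_isIntegral (AlgebraicClosure K) g
  have hA : Nontrivial A := by
    obtain ⟨p⟩ := hne
    exact PrimeSpectrum.nontrivial p
  have hinj : Function.Injective (Algebra.TensorProduct.includeLeft : A →ₐ[K] A ⊗[K] AlgebraicClosure K) :=
    Algebra.TensorProduct.includeLeft_injective (FaithfulSMul.algebraMap_injective K (AlgebraicClosure K))
  have hT : Nontrivial (A ⊗[K] AlgebraicClosure K) := hinj.nontrivial
  have e1 : pullback j (pullback.fst f g) ≅ Spec (.of (A ⊗[K] AlgebraicClosure K)) :=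
    pullbackRightPullbackFstIso f g j ≪≫ (pullback.congrHom hφA.symm rfl) ≪≫ pullbackSpecIso K A (AlgebraicClosure K)
  have h2 : Nonempty (pullback j (pullback.fst f g) : Scheme.{0}) := by
    obtain ⟨p⟩ := (inferInstance : Nonempty (PrimeSpectrum (A ⊗[K] AlgebraicClosure K)))
    exact ⟨e1.inv p⟩
  have h3 : IsIntegral (pullback j (pullback.fst f g)) :=
    isIntegral_of_isOpenImmersion (pullback.snd j (pullback.fst f g))
  have h4 : IsIntegral (Spec (.of (A ⊗[K] AlgebraicClosure K))) := IsIntegral.of_isIso e1.hom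
  exact (affine_isIntegral_iff _).1 h4

/-- rational points over existentially closed good fields -/
theorem exists_section (hpur : S_PUR) (hcec : S_CEC) (hstk : S_STK) (hsmo : S_SMO) (hglo : S_GLO) (hfld : S_FLD)
    (p : ℕ) [Fact p.Prime] {k : Type} [Field k] (K : Type) [Field K] [CharP K p] (hK : ∀ a : K, ∃ b : K, b ^ p = a) (c : k →+* K)
    (h : Good (PP p k) c)
    (hec : ∀ (M : Type) (_ : Field M) (g : K →+* M), Good (PP p k) (g.comp c) → ∀ s : Sys K, Sol g s → Sol (RingHom.id K) s)
    (X : Scheme.{0}) (f : X ⟶ Spec (.of K)) [Smooth f] [IsProper f] [GeometricallyIntegral f] (hX : H1Zero X) :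
    ∃ s : Spec (.of K) ⟶ X, s ≫ f = 𝟙 _ := by
  have hXi : IsIntegral X := GeometricallyIntegral.isIntegral_of_subsingleton f
  obtain ⟨x, -⟩ := f.surjective (IsLocalRing.closedPoint K)
  obtain ⟨_, ⟨U, hU, rfl⟩, hxU, -⟩ := X.isBasis_affineOpens.exists_subset_of_mem_open (Set.mem_univ x) isOpen_univ
  have hneU : Nonempty U := ⟨⟨x, hxU⟩⟩
  let R : CommRingCat.{0} := Γ(X, U)
  let j : Spec R ⟶ X := hU.fromSpec
  have hne : Nonempty (Spec R) := ⟨hU.primeIdealOf ⟨x, hxU⟩⟩
  obtain ⟨φ, hφ, hft, hdom⟩ := affine_data K X f R j hne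
  let A : Type := R
  let algA : Algebra K A := φ.hom.toAlgebra
  have hfA : Algebra.FiniteType K A := hft
  have hφA : Spec.map (CommRingCat.ofHom (algebraMap K A)) = j ≫ f := hφ
  have h5 : IsDomain (A ⊗[K] AlgebraicClosure K) := hdom
  have h6 : IsDomain A := PAC.isDomain_of_tensor K A
  have h7 : IsFractionRing A X.functionField := functionField_isFractionRing_of_isAffineOpen X U hU
  let e : FractionRing A ≃ₐ[A] X.functionField := FractionRing.algEquiv A X.functionField
  have hp : ∀ x y : FractionRing A, y ^ p - y = x ^ (p + 1) → ∃ w, x = w ^ p := by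
    intro x y hxy
    obtain ⟨w, hw⟩ := pth_power hpur hcec hstk hsmo hglo p K hK X f hX (e x) (e y) (by
      rw [← map_pow, ← map_pow, ← map_sub, hxy])
    refine ⟨e.symm w, ?_⟩
    apply e.injective
    rw [map_pow, AlgEquiv.apply_symm_apply, hw]
  obtain ⟨ψ⟩ := exists_algHom hfld p K c h hec A hp
  refine ⟨Spec.map (CommRingCat.ofHom ψ.toRingHom) ≫ j, ?_⟩
  rw [Category.assoc, ← hφA, ← Spec.map_comp, ← CommRingCat.ofHom_comp]
  have h8 : ψ.toRingHom.comp (algebraMap K A) = RingHom.id K := ψ.comp_algebraMap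
  rw [h8]
  exact Spec.map_id _

end Pool.Agent.Q284.NP
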